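import Mathlib

/-!
Odd induced subgraphs: Gallai's theorem, joins, `P₄`-free graphs.
-/

set_option autoImplicit false

namespace Q250.OddSub

open Finset

section General

variable {V : Type*} [Fintype V] [DecidableEq V]

/-- in characteristic two a symmetric double sum is its diagonal -/
theorem symm_sum (f : V → V → ZMod 2) (hf : ∀ u v, f u v = f v u) :
    ∑ u, ∑ v, f u v = ∑ u, f u u := by
  classical
  have h1 : ∑ u, ∑ v, f u v = ∑ p : V × V, f p.1 p.2 := by
    rw [Fintype.sum_prod_type]
  have h2 : ∑ p : V × V, f p.1 p.2 =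
      ∑ p ∈ (univ : Finset (V × V)).filter (fun p => p.1 = p.2), f p.1 p.2 +
      ∑ p ∈ (univ : Finset (V × V)).filter (fun p => ¬ p.1 = p.2), f p.1 p.2 :=
    (Finset.sum_filter_add_sum_filter_not _ _ _).symm
  have h3 : ∑ p ∈ (univ : Finset (V × V)).filter (fun p => ¬ p.1 = p.2), f p.1 p.2 = 0 := by
    apply Finset.sum_involution (fun p _ => (p.2, p.1))
    · intro p _
      rw [hf p.2 p.1]
      exact CharTwo.add_self_eq_zero _
    · intro p hp _ h
      rw [Finset.mem_filter] at hp
      apply hp.2
      have := congrArg Prod.snd h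
      simpa using this
    · intro p hp
      rw [Finset.mem_filter] at hp ⊢
      exact ⟨mem_univ _, fun h => hp.2 h.symm⟩
    · intro p _
      rfl
  have h4 : ∑ p ∈ (univ : Finset (V × V)).filter (fun p => p.1 = p.2), f p.1 p.2 =
      ∑ u, f u u := by
    rw [Finset.sum_filter, Fintype.sum_prod_type]
    refine Finset.sum_congr rfl fun u _ => ?_
    rw [Finset.sum_eq_single u]
    · simp
    · intro v _ hv
      simp [Ne.symm hv]
    · intro h; exact absurd (mem_univ u) h
  rw [h1, h2, h3, h4, add_zero]

/-- the diagonal of a symmetric matrix over `𝔽₂` is in its image -/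
theorem diag_mem (M : V → V → ZMod 2) (hM : ∀ u v, M u v = M v u) :
    ∃ x : V → ZMod 2, ∀ v, ∑ u, M v u * x u = M v v := by
  classical
  let L : (V → ZMod 2) →ₗ[ZMod 2] (V → ZMod 2) :=
    { toFun := fun x v => ∑ u, M v u * x u
      map_add' := by
        intro x y; funext v
        simp only [Pi.add_apply, mul_add, Finset.sum_add_distrib]
      map_smul' := by
        intro c x; funext v
        simp only [Pi.smul_apply, smul_eq_mul, RingHom.id_apply, Finset.mul_sum]
        exact Finset.sum_congr rfl fun u _ => by ring }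
  have key : (fun v => M v v) ∈ LinearMap.range L := by
    by_contra hcon
    obtain ⟨f, hf1, hf2⟩ := Submodule.exists_le_ker_of_notMem hcon
    set y : V → ZMod 2 := fun u => f (Pi.single u 1) with hy
    have hfy : ∀ x : V → ZMod 2, f x = ∑ u, x u * y u := by
      intro x
      conv_lhs => rw [← Finset.univ_sum_single x]
      rw [map_sum]
      refine Finset.sum_congr rfl fun u _ => ?_
      have : (Pi.single u (x u) : V → ZMod 2) = x u • (Pi.single u (1 : ZMod 2) : V → ZMod 2) := by
        rw [← Pi.single_smul, smul_eq_mul, mul_one]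
      rw [this, map_smul, smul_eq_mul]
    have h1 : f (L y) = 0 := by
      have : L y ∈ LinearMap.ker f := hf2 (LinearMap.mem_range_self L y)
      exact this
    rw [hfy] at h1
    have h2 : ∑ u, (L y) u * y u = ∑ u, ∑ v, M u v * y v * y u := by
      refine Finset.sum_congr rfl fun u _ => ?_
      change (∑ v, M u v * y v) * y u = _
      rw [Finset.sum_mul]
    rw [h2, symm_sum (fun u v => M u v * y v * y u) (by intro u v; rw [hM u v]; ring)] at h1
    apply hf1
    rw [hfy]
    rw [← h1]
    refine Finset.sum_congr rfl fun u _ => ?_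
    have : y u * y u = y u := by
      generalize y u = t
      revert t; decide
    rw [mul_assoc, this]
  obtain ⟨x, hx⟩ := key
  exact ⟨x, fun v => congrFun hx v⟩

variable (G : SimpleGraph V) [DecidableRel G.Adj]

/-- number of neighbours in `S` -/
def dg (S : Finset V) (v : V) : ℕ := (S.filter (fun u => G.Adj v u)).card

def OddSet (S : Finset V) : Prop := ∀ v ∈ S, dg G S v % 2 = 1

def EvenSet (S : Finset V) : Prop := ∀ v ∈ S, dg G S v % 2 = 0

/-- Gallai: every vertex set splits into an even and an odd set -/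
theorem gallai (W : Finset V) : ∃ E ⊆ W, EvenSet G E ∧ OddSet G (W \ E) := by
  classical
  let M : V → V → ZMod 2 := fun v u =>
    (if v ∈ W ∧ u ∈ W ∧ G.Adj v u then 1 else 0) +
      (if v = u ∧ v ∈ W then ((dg G W v + 1 : ℕ) : ZMod 2) else 0)
  obtain ⟨x, hx⟩ := diag_mem M (by
    intro u v
    simp only [M]
    congr 1
    · by_cases h : u ∈ W ∧ v ∈ W ∧ G.Adj u v
      · rw [if_pos h, if_pos ⟨h.2.1, h.1, h.2.2.symm⟩]
      · rw [if_neg h, if_neg (fun h' => h ⟨h'.2.1, h'.1, h'.2.2.symm⟩)]
    · by_cases h : u = v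
      · subst h; rfl
      · rw [if_neg (fun h' => h h'.1), if_neg (fun h' => h h'.1.symm)])
  have x01 : ∀ v, x v = 0 ∨ x v = 1 := by
    intro v; generalize x v = t; revert t; decide
  refine ⟨W.filter (fun v => x v = 1), Finset.filter_subset _ _, ?_⟩
  set E := W.filter (fun v => x v = 1) with hE
  have eq1 : ∀ v ∈ W, ((dg G E v : ℕ) : ZMod 2) + ((dg G W v + 1 : ℕ) : ZMod 2) * x v =
      ((dg G W v + 1 : ℕ) : ZMod 2) := by
    intro v hv
    have h := hx v
    have e1 : M v v = ((dg G W v + 1 : ℕ) : ZMod 2) := by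
      simp [M, hv]
    rw [e1] at h
    have hsum : ∑ u, M v u * x u =
        ∑ u, (if v ∈ W ∧ u ∈ W ∧ G.Adj v u then (1 : ZMod 2) else 0) * x u +
        ∑ u, (if v = u ∧ v ∈ W then ((dg G W v + 1 : ℕ) : ZMod 2) else 0) * x u := by
      rw [← Finset.sum_add_distrib]
      refine Finset.sum_congr rfl fun u _ => ?_
      simp only [M]
      rw [add_mul]
    refine Eq.trans ?_ h
    rw [hsum]
    congr 1
    · rw [dg, Finset.card_filter, hE, Finset.sum_filter]
      push_cast
      rw [← Finset.sum_subset (Finset.subset_univ W)]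
      · refine Finset.sum_congr rfl fun u hu => ?_
        rcases x01 u with h0 | h0 <;> by_cases ha : G.Adj v u <;> simp [hv, hu, ha, h0]
      · intro u _ hu
        simp [hu]
    · rw [Finset.sum_eq_single v]
      · rw [if_pos ⟨rfl, hv⟩]
      · intro u _ hu
        rw [if_neg (fun h => hu h.1.symm), zero_mul]
      · intro h; exact absurd (mem_univ v) h
  have split : ∀ v, dg G W v = dg G E v + dg G (W \ E) v := by
    intro v
    unfold dg
    rw [← Finset.card_union_of_disjoint]
    · congr 1
      ext u
      simp only [Finset.mem_filter, Finset.mem_union, Finset.mem_sdiff, hE]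
      tauto
    · rw [Finset.disjoint_left]
      intro u h1 h2
      rw [Finset.mem_filter] at h1 h2
      exact (Finset.mem_sdiff.1 h2.1).2 h1.1
  have cast2 : ∀ n : ℕ, (n : ZMod 2) = 0 ↔ n % 2 = 0 := by
    intro n
    rw [ZMod.natCast_eq_zero_iff]
    omega
  constructor
  · intro v hv
    rw [hE, Finset.mem_filter] at hv
    have h := eq1 v hv.1
    rw [hv.2, mul_one] at h
    have h' : ((dg G E v : ℕ) : ZMod 2) = 0 := by
      have := add_right_cancel (b := ((dg G W v + 1 : ℕ) : ZMod 2)) (h.trans (zero_add _).symm)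
      exact this
    exact (cast2 _).1 h'
  · intro v hv
    have hvW := (Finset.mem_sdiff.1 hv).1
    have hx0 : x v = 0 := by
      rcases x01 v with h | h
      · exact h
      · exfalso
        apply (Finset.mem_sdiff.1 hv).2
        rw [hE, Finset.mem_filter]
        exact ⟨hvW, h⟩
    have h := eq1 v hvW
    rw [hx0, mul_zero, add_zero] at h
    rw [split v] at h
    have h2 : ((dg G (W \ E) v + 1 : ℕ) : ZMod 2) = 0 := by
      have e : (((dg G E v + dg G (W \ E) v + 1 : ℕ)) : ZMod 2) =
          ((dg G E v : ℕ) : ZMod 2) + ((dg G (W \ E) v + 1 : ℕ) : ZMod 2) := by push_cast; ring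
      rw [e] at h
      have := add_left_cancel ((add_zero ((dg G E v : ℕ) : ZMod 2)).trans h)
      exact this.symm
    have := (cast2 _).1 h2
    omega

/-- an odd set has an even number of elements -/
theorem OddSet.even_card {S : Finset V} (h : OddSet G S) : S.card % 2 = 0 := by
  classical
  have h1 : ∑ u, ∑ v, (if u ∈ S ∧ v ∈ S ∧ G.Adj u v then (1 : ZMod 2) else 0) = 0 := by
    rw [symm_sum]
    · apply Finset.sum_eq_zero
      intro u _
      rw [if_neg (fun h => G.loopless.irrefl u h.2.2)]
    · intro u v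
      by_cases h : u ∈ S ∧ v ∈ S ∧ G.Adj u v
      · rw [if_pos h, if_pos ⟨h.2.1, h.1, h.2.2.symm⟩]
      · rw [if_neg h, if_neg (fun h' => h ⟨h'.2.1, h'.1, h'.2.2.symm⟩)]
  have h2 : ∀ u ∈ S, ∑ v, (if u ∈ S ∧ v ∈ S ∧ G.Adj u v then (1 : ZMod 2) else 0) = 1 := by
    intro u hu
    have e : ∑ v, (if u ∈ S ∧ v ∈ S ∧ G.Adj u v then (1 : ZMod 2) else 0) =
        ((dg G S u : ℕ) : ZMod 2) := by
      rw [dg, Finset.card_filter]
      push_cast
      rw [← Finset.sum_subset (Finset.subset_univ S)]
      · refine Finset.sum_congr rfl fun v hv => ?_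
        simp [hu, hv]
      · intro v _ hv
        simp [hv]
    rw [e]
    have h3 := h u hu
    have : ((dg G S u % 2 : ℕ) : ZMod 2) = ((dg G S u : ℕ) : ZMod 2) := ZMod.natCast_mod _ 2
    rw [← this, h3]
    rfl
  have h3 : ((S.card : ℕ) : ZMod 2) = 0 := by
    rw [← h1, ← Finset.sum_subset (Finset.subset_univ S)]
    · rw [Finset.sum_congr rfl h2]
      simp
    · intro u _ hu
      simp [hu]
  rw [ZMod.natCast_eq_zero_iff] at h3
  omega

theorem dg_union {S T : Finset V} (hd : Disjoint S T) (v : V) :
    dg G (S ∪ T) v = dg G S v + dg G T v := by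
  unfold dg
  rw [Finset.filter_union, Finset.card_union_of_disjoint]
  exact Finset.disjoint_filter_filter hd

theorem dg_full {T : Finset V} {v : V} (h : ∀ u ∈ T, G.Adj v u) : dg G T v = T.card := by
  unfold dg
  rw [Finset.filter_true_of_mem h]

theorem dg_none {T : Finset V} {v : V} (h : ∀ u ∈ T, ¬ G.Adj v u) : dg G T v = 0 := by
  unfold dg
  rw [Finset.filter_false_of_mem h, Finset.card_empty]

theorem odd_subset (A : Finset V) (hA : A.Nonempty) : ∃ A' ⊆ A, A'.card % 2 = 1 ∧
    A.card ≤ A'.card + 1 := by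
  by_cases h : A.card % 2 = 1
  · exact ⟨A, subset_rfl, h, by omega⟩
  · obtain ⟨a, ha⟩ := hA
    refine ⟨A.erase a, Finset.erase_subset _ _, ?_, ?_⟩
    · rw [Finset.card_erase_of_mem ha]
      have := Finset.card_pos.2 ⟨a, ha⟩
      omega
    · rw [Finset.card_erase_of_mem ha]
      omega

/-- a join on `m` vertices has an odd set with at least `(m - 2) / 2` vertices -/
theorem join {A B : Finset V} (hA : A.Nonempty) (hB : B.Nonempty) (hd : Disjoint A B)
    (hj : ∀ a ∈ A, ∀ b ∈ B, G.Adj a b) :
    ∃ S ⊆ A ∪ B, OddSet G S ∧ A.card + B.card ≤ 2 * S.card + 2 := by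
  obtain ⟨A', hA', oA, cA⟩ := odd_subset A hA
  obtain ⟨B', hB', oB, cB⟩ := odd_subset B hB
  obtain ⟨EA, hEA, eA, odA⟩ := gallai G A'
  obtain ⟨EB, hEB, eB, odB⟩ := gallai G B'
  have c1 := odA.even_card
  have c2 := odB.even_card
  have c3 := Finset.card_sdiff_add_card_eq_card hEA
  have c4 := Finset.card_sdiff_add_card_eq_card hEB
  have sub1 : A' \ EA ⊆ A := sdiff_subset.trans hA'
  have sub2 : B' \ EB ⊆ B := sdiff_subset.trans hB'
  have d1 : Disjoint (A' \ EA) (B' \ EB) := hd.mono sub1 sub2
  have d2 : Disjoint EA EB := hd.mono (hEA.trans hA') (hEB.trans hB')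
  have hS1 : OddSet G ((A' \ EA) ∪ (B' \ EB)) := by
    intro v hv
    rw [dg_union G d1]
    rcases Finset.mem_union.1 hv with h | h
    · rw [dg_full G (T := B' \ EB) (fun u hu => hj v (sub1 h) u (sub2 hu))]
      have := odA v h
      omega
    · rw [dg_full G (T := A' \ EA) (fun u hu => (hj u (sub1 hu) v (sub2 h)).symm)]
      have := odB v h
      omega
  have hS2 : OddSet G (EA ∪ EB) := by
    intro v hv
    rw [dg_union G d2]
    rcases Finset.mem_union.1 hv with h | h
    · rw [dg_full G (T := EB) (fun u hu => hj v (hA' (hEA h)) u (hB' (hEB hu)))]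
      have := eA v h
      omega
    · rw [dg_full G (T := EA) (fun u hu => (hj u (hA' (hEA hu)) v (hB' (hEB h))).symm)]
      have := eB v h
      omega
  have e1 := Finset.card_union_of_disjoint d1
  have e2 := Finset.card_union_of_disjoint d2
  by_cases hc : (EA ∪ EB).card ≤ ((A' \ EA) ∪ (B' \ EB)).card
  · refine ⟨(A' \ EA) ∪ (B' \ EB), Finset.union_subset_union sub1 sub2, hS1, by omega⟩
  · refine ⟨EA ∪ EB, Finset.union_subset_union (hEA.trans hA') (hEB.trans hB'), hS2, by omega⟩

end General

section Split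

variable {V : Type*} [DecidableEq V]

theorem core (r : V → V → Prop) (hs : ∀ a b, r a b → r b a) {v : V} {A B : Finset V}
    (hA : A.Nonempty) (hB : B.Nonempty) (hdis : Disjoint A B) (hv : v ∉ A ∪ B)
    (hno : ∀ a ∈ A, ∀ b ∈ B, ¬ r a b)
    (conn : ∀ Y ⊆ insert v (A ∪ B), Y.Nonempty → (insert v (A ∪ B) \ Y).Nonempty →
      ∃ y ∈ Y, ∃ z ∈ insert v (A ∪ B) \ Y, r y z)
    (hD : ∃ d ∈ A, ¬ r v d) :
    ∃ b ∈ A, ∃ a ∈ A, ∃ c ∈ B, r b a ∧ r a v ∧ r v c ∧ ¬ r b v ∧ ¬ r a c ∧ ¬ r b c := by
  classical
  obtain ⟨d, hdA, hdv⟩ := hD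
  obtain ⟨b, hb, a, ha, hba⟩ := conn (A.filter (fun d => ¬ r v d)) (by
      intro y hy
      rw [Finset.mem_filter] at hy
      exact Finset.mem_insert_of_mem (Finset.mem_union_left _ hy.1))
    ⟨d, by rw [Finset.mem_filter]; exact ⟨hdA, hdv⟩⟩
    ⟨v, by
      rw [Finset.mem_sdiff, Finset.mem_filter]
      exact ⟨Finset.mem_insert_self _ _, fun h => hv (Finset.mem_union_left _ h.1)⟩⟩
  rw [Finset.mem_filter] at hb
  rw [Finset.mem_sdiff, Finset.mem_filter, Finset.mem_insert, Finset.mem_union] at ha
  have haA : a ∈ A ∧ r v a := by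
    rcases ha.1 with rfl | h | h
    · exact absurd (hs _ _ hba) hb.2
    · refine ⟨h, ?_⟩
      by_contra hc
      exact ha.2 ⟨h, hc⟩
    · exact absurd hba (hno b hb.1 a h)
  obtain ⟨c, hc, z, hz, hcz⟩ := conn B (by
      intro y hy
      exact Finset.mem_insert_of_mem (Finset.mem_union_right _ hy)) hB
    ⟨v, by
      rw [Finset.mem_sdiff]
      exact ⟨Finset.mem_insert_self _ _, fun h => hv (Finset.mem_union_right _ h)⟩⟩
  rw [Finset.mem_sdiff, Finset.mem_insert, Finset.mem_union] at hz
  have hzv : z = v := by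
    rcases hz.1 with h | h | h
    · exact h
    · exact absurd (hs _ _ hcz) (hno z h c hc)
    · exact absurd h hz.2
  subst hzv
  exact ⟨b, hb.1, a, haA.1, c, hc, hba, hs _ _ haA.2, hs _ _ hcz, fun h => hb.2 (hs _ _ h),
    hno a haA.1 c hc, hno b hb.1 c hc⟩

/-- `core` without the side condition on the position of the non-neighbour -/
theorem core' (r : V → V → Prop) (hs : ∀ a b, r a b → r b a) {v : V} {A B : Finset V}
    (hA : A.Nonempty) (hB : B.Nonempty) (hdis : Disjoint A B) (hv : v ∉ A ∪ B)
    (hno : ∀ a ∈ A, ∀ b ∈ B, ¬ r a b)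
    (conn : ∀ Y ⊆ insert v (A ∪ B), Y.Nonempty → (insert v (A ∪ B) \ Y).Nonempty →
      ∃ y ∈ Y, ∃ z ∈ insert v (A ∪ B) \ Y, r y z)
    (hD : ∃ d ∈ A ∪ B, ¬ r v d) :
    ∃ b ∈ A ∪ B, ∃ a ∈ A ∪ B, ∃ c ∈ A ∪ B, b ≠ c ∧ a ≠ c ∧ b ≠ v ∧
      r b a ∧ r a v ∧ r v c ∧ ¬ r b v ∧ ¬ r a c ∧ ¬ r b c := by
  obtain ⟨d, hd, hdv⟩ := hD
  rcases Finset.mem_union.1 hd with h | h
  · obtain ⟨b, hb, a, ha, c, hc, h1⟩ := core r hs hA hB hdis hv hno conn ⟨d, h, hdv⟩
    refine ⟨b, mem_union_left _ hb, a, mem_union_left _ ha, c, mem_union_right _ hc, ?_, ?_, ?_, h1⟩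
    · rintro rfl; exact Finset.disjoint_left.1 hdis hb hc
    · rintro rfl; exact Finset.disjoint_left.1 hdis ha hc
    · rintro rfl; exact hv (mem_union_left _ hb)
  · rw [Finset.union_comm A B] at conn hv
    obtain ⟨b, hb, a, ha, c, hc, h1⟩ := core r hs hB hA hdis.symm hv
      (fun a ha b hb h' => hno b hb a ha (hs _ _ h')) conn ⟨d, h, hdv⟩
    refine ⟨b, mem_union_right _ hb, a, mem_union_right _ ha, c, mem_union_left _ hc, ?_, ?_, ?_, h1⟩
    · rintro rfl; exact Finset.disjoint_left.1 hdis hc hb
    · rintro rfl; exact Finset.disjoint_left.1 hdis hc ha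
    · rintro rfl; exact hv (mem_union_left _ hb)

/-- no induced path on four vertices inside `W` -/
def P4free (G : SimpleGraph V) (W : Finset V) : Prop :=
  ∀ a ∈ W, ∀ b ∈ W, ∀ c ∈ W, ∀ d ∈ W,
    ¬ (G.Adj a b ∧ G.Adj b c ∧ G.Adj c d ∧ ¬ G.Adj a c ∧ ¬ G.Adj b d ∧ ¬ G.Adj a d)

/-- Seinsche: a `P₄`-free graph or its complement is disconnected -/
theorem split (G : SimpleGraph V) (W : Finset V) : P4free G W → 2 ≤ W.card →
    ∃ A B : Finset V, A.Nonempty ∧ B.Nonempty ∧ Disjoint A B ∧ A ∪ B = W ∧
      ((∀ a ∈ A, ∀ b ∈ B, ¬ G.Adj a b) ∨ (∀ a ∈ A, ∀ b ∈ B, G.Adj a b)) := by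
  classical
  induction W using Finset.induction_on with
  | empty => intro _ h; simp at h
  | insert v W' hvW ih =>
    intro hP hcard
    rw [Finset.card_insert_of_notMem hvW] at hcard
    by_cases h2 : 2 ≤ W'.card
    · obtain ⟨A, B, hA, hB, hdis, hAB, hor⟩ := ih (fun a ha b hb c hc d hd =>
        hP a (mem_insert_of_mem ha) b (mem_insert_of_mem hb) c (mem_insert_of_mem hc) d
          (mem_insert_of_mem hd)) h2
      by_contra hcon
      -- no split of `insert v W'`
      have hne : ∀ Y ⊆ insert v W', Y.Nonempty → (insert v W' \ Y).Nonempty →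
          (∃ y ∈ Y, ∃ z ∈ insert v W' \ Y, G.Adj y z) ∧
          (∃ y ∈ Y, ∃ z ∈ insert v W' \ Y, ¬ G.Adj y z) := by
        intro Y hY h1 h3
        constructor
        · by_contra hc
          push Not at hc
          exact hcon ⟨Y, insert v W' \ Y, h1, h3, disjoint_sdiff,
            Finset.union_sdiff_of_subset hY, Or.inl fun a ha b hb => hc a ha b hb⟩
        · by_contra hc
          push Not at hc
          exact hcon ⟨Y, insert v W' \ Y, h1, h3, disjoint_sdiff,
            Finset.union_sdiff_of_subset hY, Or.inr fun a ha b hb => hc a ha b hb⟩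
      subst hAB
      have hnon : (A ∪ B).Nonempty := hA.mono subset_union_left
      have hv1 : ∃ d ∈ A ∪ B, ¬ G.Adj v d := by
        by_contra hc
        push Not at hc
        exact hcon ⟨{v}, A ∪ B, ⟨v, mem_singleton_self v⟩, hnon, by
          rw [Finset.disjoint_singleton_left]; exact hvW, by
          rw [Finset.insert_eq], Or.inr (by
          intro a ha b hb
          rw [mem_singleton] at ha
          subst ha
          exact hc b hb)⟩
      have hv2 : ∃ d ∈ A ∪ B, G.Adj v d := by
        by_contra hc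
        push Not at hc
        exact hcon ⟨{v}, A ∪ B, ⟨v, mem_singleton_self v⟩, hnon, by
          rw [Finset.disjoint_singleton_left]; exact hvW, by
          rw [Finset.insert_eq], Or.inl (by
          intro a ha b hb
          rw [mem_singleton] at ha
          subst ha
          exact hc b hb)⟩
      rcases hor with hno | hno
      · obtain ⟨b, hb, a, ha, c, hc, n1, n2, n3, r1, r2, r3, r4, r5, r6⟩ :=
          core' G.Adj (fun _ _ h => h.symm) hA hB hdis hvW hno
            (fun Y hY h1 h3 => (hne Y hY h1 h3).1) hv1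
        exact hP b (mem_insert_of_mem hb) a (mem_insert_of_mem ha) v (mem_insert_self _ _) c
          (mem_insert_of_mem hc) ⟨r1, r2, r3, r4, r5, r6⟩
      · obtain ⟨b, hb, a, ha, c, hc, n1, n2, n3, r1, r2, r3, r4, r5, r6⟩ :=
          core' (fun x y => ¬ G.Adj x y) (fun _ _ h h' => h h'.symm) hA hB hdis hvW
            (fun a ha b hb h => h (hno a ha b hb))
            (fun Y hY h1 h3 => (hne Y hY h1 h3).2) (by
              obtain ⟨d, hd, h⟩ := hv2
              exact ⟨d, hd, fun h' => h' h⟩)
        push Not at r4 r5 r6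
        -- edges `a c`, `c b`, `b v`
        exact hP a (mem_insert_of_mem ha) c (mem_insert_of_mem hc) b (mem_insert_of_mem hb) v
          (mem_insert_self _ _) ⟨r5, r6.symm, r4, fun h => r1 h.symm, fun h => r3 h.symm, r2⟩
    · have h1 : W'.card = 1 := by omega
      obtain ⟨u, rfl⟩ := Finset.card_eq_one.1 h1
      refine ⟨{v}, {u}, ⟨v, mem_singleton_self v⟩, ⟨u, mem_singleton_self u⟩, ?_, ?_, ?_⟩
      · rw [Finset.disjoint_singleton_left]; exact hvW
      · rw [Finset.insert_eq]
      · by_cases h : G.Adj v u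
        · right
          intro a ha b hb
          rw [mem_singleton] at ha hb
          rw [ha, hb]; exact h
        · left
          intro a ha b hb
          rw [mem_singleton] at ha hb
          rw [ha, hb]; exact h

end Split

section Main

variable {V : Type*} [Fintype V] [DecidableEq V] (G : SimpleGraph V) [DecidableRel G.Adj]

/-- the lower bound -/
theorem lower : ∀ (n : ℕ) (W : Finset V), W.card = n → P4free G W →
    (∀ v ∈ W, ∃ u ∈ W, G.Adj v u) → ∃ S ⊆ W, OddSet G S ∧ W.card ≤ 3 * S.card := by
  intro n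
  induction n using Nat.strong_induction_on with
  | _ n ih =>
    intro W hn hP hI
    by_cases h2 : 2 ≤ W.card
    · obtain ⟨A, B, hA, hB, hdis, hAB, hor⟩ := split G W hP h2
      have hc := Finset.card_union_of_disjoint hdis
      rw [hAB] at hc
      have hAW : A ⊆ W := by rw [← hAB]; exact subset_union_left
      have hBW : B ⊆ W := by rw [← hAB]; exact subset_union_right
      have cA := Finset.card_pos.2 hA
      have cB := Finset.card_pos.2 hB
      rcases hor with hno | hj
      · obtain ⟨S, hS, oS, sS⟩ := ih A.card (by omega) A rfl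
          (fun a ha b hb c hc d hd => hP a (hAW ha) b (hAW hb) c (hAW hc) d (hAW hd)) (by
            intro v hv
            obtain ⟨u, hu, huv⟩ := hI v (hAW hv)
            rw [← hAB, mem_union] at hu
            rcases hu with hu | hu
            · exact ⟨u, hu, huv⟩
            · exact absurd huv (hno v hv u hu))
        obtain ⟨T, hT, oT, sT⟩ := ih B.card (by omega) B rfl
          (fun a ha b hb c hc d hd => hP a (hBW ha) b (hBW hb) c (hBW hc) d (hBW hd)) (by
            intro v hv
            obtain ⟨u, hu, huv⟩ := hI v (hBW hv)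
            rw [← hAB, mem_union] at hu
            rcases hu with hu | hu
            · exact absurd huv.symm (hno u hu v hv)
            · exact ⟨u, hu, huv⟩)
        have dST : Disjoint S T := hdis.mono hS hT
        refine ⟨S ∪ T, Finset.union_subset (hS.trans hAW) (hT.trans hBW), ?_, ?_⟩
        · intro v hv
          rw [dg_union G dST]
          rcases mem_union.1 hv with h | h
          · rw [dg_none G (T := T) (fun u hu => hno v (hS h) u (hT hu))]
            exact oS v h
          · rw [dg_none G (T := S) (fun u hu h' => hno u (hS hu) v (hT h) h'.symm)]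
            have := oT v h
            omega
        · rw [Finset.card_union_of_disjoint dST]
          omega
      · obtain ⟨S, hS, oS, sS⟩ := join G hA hB hdis hj
        have ev := oS.even_card
        by_cases h0 : S.card = 0
        · obtain ⟨a, ha⟩ := hA
          obtain ⟨b, hb⟩ := hB
          have hab := hj a ha b hb
          have hne : a ≠ b := hab.ne
          refine ⟨{a, b}, ?_, ?_, ?_⟩
          · intro x hx
            rw [mem_insert, mem_singleton] at hx
            rcases hx with rfl | rfl
            · exact hAW ha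
            · exact hBW hb
          · intro v hv
            rw [mem_insert, mem_singleton] at hv
            unfold dg
            rcases hv with rfl | rfl
            · have : ({v, b} : Finset V).filter (fun u => G.Adj v u) = {b} := by
                ext u
                simp only [mem_filter, mem_insert, mem_singleton]
                constructor
                · rintro ⟨h | h, h'⟩
                  · subst h; exact absurd h' (G.loopless.irrefl _)
                  · exact h
                · rintro rfl; exact ⟨Or.inr rfl, hab⟩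
              rw [this]; rfl
            · have : ({a, v} : Finset V).filter (fun u => G.Adj v u) = {a} := by
                ext u
                simp only [mem_filter, mem_insert, mem_singleton]
                constructor
                · rintro ⟨h | h, h'⟩
                  · exact h
                  · subst h; exact absurd h' (G.loopless.irrefl _)
                · rintro rfl; exact ⟨Or.inl rfl, hab.symm⟩
              rw [this]; rfl
          · rw [Finset.card_pair hne]
            omega
        · refine ⟨S, by rw [← hAB]; exact hS, oS, by omega⟩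
    · have h0 : W.card = 0 := by
        by_contra h
        have h1 : W.card = 1 := by omega
        obtain ⟨v, rfl⟩ := Finset.card_eq_one.1 h1
        obtain ⟨u, hu, h⟩ := hI v (mem_singleton_self v)
        rw [mem_singleton] at hu
        subst hu
        exact G.loopless.irrefl _ h
      exact ⟨∅, Finset.empty_subset _, fun v hv => absurd hv (Finset.notMem_empty v), by omega⟩

end Main

end Q250.OddSub
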