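import Pool.Agent.Cov.PNT

/-!
Primes in arithmetic progressions in multiplicative windows `(α x, β x]` (from the prime number
theorem in arithmetic progressions).
-/

set_option autoImplicit false

namespace Q250.PrimeAP

open Finset Filter Topology ArithmeticFunction

/-- `∑_{k ≤ y, k ≡ a} Λ(k)` -/
noncomputable def S {M : ℕ} (a : ZMod M) (y : ℝ) : ℝ :=
  ∑ k ∈ Finset.Icc 1 ⌊y⌋₊, vonMangoldt.residueClass a k

theorem diff_le {M : ℕ} (a : ZMod M) {y z : ℝ} (hyz : y ≤ z)
    (h : ∀ p : ℕ, p.Prime → (p : ZMod M) = a → ¬ (⌊y⌋₊ < p ∧ p ≤ ⌊z⌋₊)) :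
    S a z - S a y ≤ Chebyshev.psi z - Chebyshev.theta z := by
  have hfl : ⌊y⌋₊ ≤ ⌊z⌋₊ := Nat.floor_le_floor hyz
  have e1 : S a z - S a y = ∑ k ∈ Finset.Ioc ⌊y⌋₊ ⌊z⌋₊, vonMangoldt.residueClass a k := by
    unfold S
    have h1 : ∀ n : ℕ, Finset.Icc 1 n = Finset.Ioc 0 n := fun n => rfl
    rw [h1, h1, ← Finset.sum_Ioc_consecutive _ (Nat.zero_le _) hfl]
    ring
  have e2 : Chebyshev.psi z - Chebyshev.theta z =
      ∑ k ∈ Finset.Ioc 0 ⌊z⌋₊, (Λ k - if k.Prime then Real.log k else 0) := by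
    unfold Chebyshev.psi Chebyshev.theta
    rw [Finset.sum_sub_distrib, Finset.sum_filter]
  have h0 : ∀ k : ℕ, 0 ≤ Λ k - (if k.Prime then Real.log k else 0) := by
    intro k
    split_ifs with hk
    · rw [vonMangoldt_apply_prime hk]; simp
    · simp
  rw [e1, e2]
  refine le_trans (Finset.sum_le_sum (g := fun k => Λ k - if k.Prime then Real.log k else 0) ?_) ?_
  · intro k hk
    rw [Finset.mem_Ioc] at hk
    by_cases hkp : k.Prime
    · have : vonMangoldt.residueClass a k = 0 := by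
        rw [vonMangoldt.residueClass, Set.indicator_of_notMem]
        intro h'
        exact h k hkp h' hk
      rw [this]
      exact h0 k
    · simp only [hkp, if_false, sub_zero]
      exact vonMangoldt.residueClass_le a k
  · refine Finset.sum_le_sum_of_subset_of_nonneg ?_ (fun k _ _ => h0 k)
    intro k hk
    rw [Finset.mem_Ioc] at hk ⊢
    omega

/-- For a unit `a` modulo `M` and `0 < α < β`, every large `x` has a prime `p ≡ a (mod M)` with
`α x < p ≤ β x`. -/
theorem window {M : ℕ} [NeZero M] {a : ZMod M} (ha : IsUnit a) {α β : ℝ} (hα : 0 < α)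
    (hαβ : α < β) :
    ∀ᶠ x : ℝ in atTop, ∃ p : ℕ, p.Prime ∧ (p : ZMod M) = a ∧ α * x < p ∧ (p : ℝ) ≤ β * x := by
  have hβ : 0 < β := hα.trans hαβ
  have hc : (0 : ℝ) < (M.totient : ℝ)⁻¹ := by
    apply inv_pos.2
    exact_mod_cast Nat.totient_pos.2 (NeZero.pos M)
  have t1 : ∀ γ : ℝ, 0 < γ → Tendsto (fun x : ℝ => S a (γ * x) / x) atTop
      (𝓝 (γ * (M.totient : ℝ)⁻¹)) := by
    intro γ hγ
    have h := (Pool.Agent.Cov.PNT.pnt_residueClass ha).comp
      ((tendsto_const_mul_atTop_of_pos hγ).2 tendsto_id)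
    refine (h.const_mul γ).congr' ?_
    filter_upwards [eventually_gt_atTop 0] with x hx
    simp only [Function.comp, id, S]
    field_simp
  have t2 : Tendsto (fun x : ℝ => (Chebyshev.psi (β * x) - Chebyshev.theta (β * x)) / x) atTop
      (𝓝 0) := by
    have h1 := Pool.Agent.Cov.PNT.psi_div_tendsto.sub Pool.Agent.Cov.PNT.theta_div_tendsto
    have h := h1.comp ((tendsto_const_mul_atTop_of_pos hβ).2 tendsto_id)
    have h2 := h.const_mul β
    rw [sub_self, mul_zero] at h2
    refine h2.congr' ?_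
    filter_upwards [eventually_gt_atTop 0] with x hx
    simp only [Function.comp, id]
    field_simp
  have t3 := ((t1 β hβ).sub (t1 α hα)).sub t2
  have hpos : 0 < β * (M.totient : ℝ)⁻¹ - α * (M.totient : ℝ)⁻¹ - 0 := by
    have : 0 < (β - α) * (M.totient : ℝ)⁻¹ := mul_pos (by linarith) hc
    linarith
  filter_upwards [t3.eventually_const_lt hpos, eventually_gt_atTop 0] with x hx hx0
  by_contra hcon
  push Not at hcon
  have hyz : α * x ≤ β * x := by nlinarith
  have hd := diff_le a hyz (fun p hp hpa hI => by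
    have h1 : α * x < p := Nat.lt_of_floor_lt hI.1
    have h2 := hcon p hp hpa h1
    have h3 : (p : ℝ) ≤ β * x := (Nat.le_floor_iff (by positivity)).1 hI.2
    linarith)
  have e : (S a (β * x) / x - S a (α * x) / x - (Chebyshev.psi (β * x) -
      Chebyshev.theta (β * x)) / x) =
      (S a (β * x) - S a (α * x) - (Chebyshev.psi (β * x) - Chebyshev.theta (β * x))) / x := by
    field_simp
  rw [e] at hx
  have := (div_pos_iff_of_pos_right hx0).1 hx
  linarith

end Q250.PrimeAP
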