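import Mathlib

/-! Restricted (multi-colour) partition functions: recursion, and densities of periodic sets. -/

set_option autoImplicit false

open Filter Topology Finset

namespace Q250.RP

/-- the number of `k`-tuples `(c_1, …, c_k)` of non-negative integers with `∑ c_i a_i = n` -/
noncomputable def rp (a : ℕ → ℕ) (k n : ℕ) : ℕ :=
  Nat.card {c : Fin k → ℕ // ∑ i : Fin k, c i * a i = n}

theorem finite_sol (a : ℕ → ℕ) (ha : ∀ i, 0 < a i) (k n : ℕ) :
    Finite {c : Fin k → ℕ // ∑ i : Fin k, c i * a i = n} := by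
  apply Finite.of_injective
    (f := fun c : {c : Fin k → ℕ // ∑ i : Fin k, c i * a i = n} =>
      (fun i : Fin k => (⟨c.1 i, by
        have h1 : c.1 i * a i ≤ ∑ i : Fin k, c.1 i * a i :=
          Finset.single_le_sum (f := fun i : Fin k => c.1 i * a i) (fun _ _ => Nat.zero_le _)
            (Finset.mem_univ i)
        have h2 := c.2
        have h3 : c.1 i ≤ c.1 i * a i := Nat.le_mul_of_pos_right _ (ha i)
        omega⟩ : Fin (n + 1))))
  intro c d h
  apply Subtype.ext
  funext i
  have := congrFun h i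
  simpa using this

/-- the equivalence behind the recursion -/
def solEquiv (a : ℕ → ℕ) (ha : ∀ i, 0 < a i) (k n : ℕ) :
    {c : Fin (k + 1) → ℕ // ∑ i : Fin (k + 1), c i * a i = n} ≃
      Σ j : Fin (n / a k + 1), {c : Fin k → ℕ // ∑ i : Fin k, c i * a i = n - j * a k} where
  toFun c := ⟨⟨c.1 (Fin.last k), by
      have h := c.2
      rw [Fin.sum_univ_castSucc] at h
      simp only [Fin.val_last] at h
      have h1 : c.1 (Fin.last k) * a k ≤ n := by omega
      have := (Nat.le_div_iff_mul_le (ha k)).2 h1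
      omega⟩, ⟨fun i => c.1 i.castSucc, by
      have h := c.2
      rw [Fin.sum_univ_castSucc] at h
      simp only [Fin.val_last, Fin.val_castSucc] at h
      simp only
      omega⟩⟩
  invFun x := ⟨Fin.snoc x.2.1 (x.1 : ℕ), by
      rw [Fin.sum_univ_castSucc]
      simp only [Fin.snoc_castSucc, Fin.snoc_last, Fin.val_last, Fin.val_castSucc]
      have h := x.2.2
      have h1 : (x.1 : ℕ) ≤ n / a k := by have := x.1.2; omega
      have h2 := (Nat.le_div_iff_mul_le (ha k)).1 h1
      omega⟩
  left_inv c := by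
    apply Subtype.ext
    funext i
    refine Fin.lastCases ?_ (fun i => ?_) i
    · simp
    · simp
  right_inv x := by
    obtain ⟨j, c, hc⟩ := x
    have : ∀ (j' : Fin (n / a k + 1)) (c' : Fin k → ℕ) (hc' : ∑ i : Fin k, c' i * a i = n - j' * a k),
      j' = j → c' = c → (⟨j', ⟨c', hc'⟩⟩ : Σ j : Fin (n / a k + 1),
        {c : Fin k → ℕ // ∑ i : Fin k, c i * a i = n - j * a k}) = ⟨j, ⟨c, hc⟩⟩ := by
      intro j' c' hc' h1 h2
      subst h1; subst h2; rfl
    apply this
    · apply Fin.ext; simp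
    · funext i; simp

theorem rp_succ (a : ℕ → ℕ) (ha : ∀ i, 0 < a i) (k n : ℕ) :
    rp a (k + 1) n = ∑ j ∈ range (n / a k + 1), rp a k (n - j * a k) := by
  unfold rp
  rw [Nat.card_congr (solEquiv a ha k n)]
  have : ∀ j : Fin (n / a k + 1), Finite {c : Fin k → ℕ // ∑ i : Fin k, c i * a i = n - j * a k} :=
    fun j => finite_sol a ha k _
  rw [Nat.card_sigma, Finset.sum_range]

theorem rp_zero_zero (a : ℕ → ℕ) : rp a 0 0 = 1 := by
  unfold rp
  rw [Nat.card_eq_one_iff_unique]
  refine ⟨⟨fun x y => Subtype.ext (Subsingleton.elim _ _)⟩, ⟨⟨Fin.elim0, by simp⟩⟩⟩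

theorem rp_zero_pos (a : ℕ → ℕ) (n : ℕ) (hn : n ≠ 0) : rp a 0 n = 0 := by
  unfold rp
  rw [Nat.card_eq_zero]
  left
  refine ⟨fun x => hn ?_⟩
  have := x.2
  simpa using this.symm

theorem rp_one (a : ℕ → ℕ) (ha : ∀ i, 0 < a i) (n : ℕ) : rp a 1 n = if a 0 ∣ n then 1 else 0 := by
  rw [show (1 : ℕ) = 0 + 1 from rfl, rp_succ a ha]
  split_ifs with h
  · obtain ⟨m, rfl⟩ := h
    rw [Nat.mul_div_cancel_left _ (ha 0)]
    rw [Finset.sum_eq_single m]
    · rw [mul_comm, Nat.sub_self, rp_zero_zero]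
    · intro j hj hjm
      rw [mem_range] at hj
      apply rp_zero_pos
      have : j * a 0 < a 0 * m := by
        rw [mul_comm]
        exact Nat.mul_lt_mul_of_pos_left (by omega) (ha 0)
      omega
    · intro h
      exact absurd (mem_range.2 (by omega)) h
  · apply Finset.sum_eq_zero
    intro j hj
    rw [mem_range] at hj
    apply rp_zero_pos
    intro h0
    have h1 : j ≤ n / a 0 := by omega
    have h2 := (Nat.le_div_iff_mul_le (ha 0)).1 h1
    apply h
    exact ⟨j, by rw [mul_comm]; omega⟩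

/-! ### densities of periodic sets -/

theorem count_add_period (P : ℕ → Prop) [DecidablePred P] (T : ℕ) (hP : ∀ n, P (n + T) ↔ P n)
    (q r : ℕ) : Nat.count P (q * T + r) = q * Nat.count P T + Nat.count P r := by
  have hq : ∀ q n, P (n + q * T) ↔ P n := by
    intro q
    induction q with
    | zero => intro n; simp
    | succ q ih =>
      intro n
      rw [Nat.succ_mul, ← Nat.add_assoc, hP, ih]
  have hcount : ∀ q r, Nat.count (fun k => P (q * T + k)) r = Nat.count P r := by
    intro q r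
    apply le_antisymm <;> (apply Nat.count_mono_left; intro k _; rw [add_comm, hq]; simp)
  induction q with
  | zero => simp
  | succ q ih =>
    rw [Nat.succ_mul, Nat.add_assoc, Nat.count_add, hcount, Nat.count_add]
    have h0 : Nat.count P (q * T) = q * Nat.count P T := by
      have := ih
      rw [Nat.count_add, hcount] at this
      omega
    have h1 : Nat.count (fun k => P (T + k)) r = Nat.count P r := by
      have := hcount 1 r
      simpa using this
    rw [h0, h1]
    ring

theorem tendsto_count_periodic (P : ℕ → Prop) [DecidablePred P] (T : ℕ) (hT : 0 < T)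
    (hP : ∀ n, P (n + T) ↔ P n) :
    Tendsto (fun N : ℕ => (({n : ℕ | n ≤ N ∧ P n}.ncard : ℕ) : ℝ) / N) atTop
      (𝓝 ((Nat.count P T : ℝ) / T)) := by
  have hset : ∀ N : ℕ, {n : ℕ | n ≤ N ∧ P n}.ncard = Nat.count P (N + 1) := by
    intro N
    rw [Nat.count_eq_card_filter_range]
    rw [← Set.ncard_coe_finset]
    congr 1
    ext n
    simp
  have hb : ∀ N : ℕ, |(Nat.count P (N + 1) : ℝ) - N * ((Nat.count P T : ℝ) / T)| ≤ 2 * T + 1 := by
    intro N
    have hdiv := Nat.div_add_mod' (N + 1) T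
    have h1 := count_add_period P T hP ((N + 1) / T) ((N + 1) % T)
    rw [hdiv] at h1
    have h2 : Nat.count P ((N + 1) % T) ≤ T :=
      (Nat.count_le P).trans (Nat.mod_lt _ hT).le
    have h3 : (N + 1) % T < T := Nat.mod_lt _ hT
    have h4 : Nat.count P T ≤ T := Nat.count_le P
    have hTr : (0 : ℝ) < T := by exact_mod_cast hT
    have e1 : (Nat.count P (N + 1) : ℝ) = ((N + 1) / T : ℕ) * (Nat.count P T : ℝ) +
        (Nat.count P ((N + 1) % T) : ℝ) := by exact_mod_cast h1
    have e2 : (N : ℝ) = ((N + 1) / T : ℕ) * (T : ℝ) + ((N + 1) % T : ℕ) - 1 := by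
      have : ((N + 1 : ℕ) : ℝ) = (((N + 1) / T * T + (N + 1) % T : ℕ) : ℝ) := by rw [hdiv]
      push_cast at this
      push_cast
      linarith
    rw [e1, e2]
    have h5 : (((N + 1) / T : ℕ) * (Nat.count P T : ℝ) + (Nat.count P ((N + 1) % T) : ℝ)) -
        (((N + 1) / T : ℕ) * (T : ℝ) + ((N + 1) % T : ℕ) - 1) * ((Nat.count P T : ℝ) / T) =
        (Nat.count P ((N + 1) % T) : ℝ) - (((N + 1) % T : ℕ) - 1) * ((Nat.count P T : ℝ) / T) := by
      field_simp
      ring
    rw [h5]
    have h6 : (Nat.count P ((N + 1) % T) : ℝ) ≤ T := by exact_mod_cast h2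
    have h7 : (0 : ℝ) ≤ (Nat.count P ((N + 1) % T) : ℝ) := by positivity
    have h8 : (0 : ℝ) ≤ (Nat.count P T : ℝ) / T := by positivity
    have h9 : (Nat.count P T : ℝ) / T ≤ 1 := by
      rw [div_le_one hTr]; exact_mod_cast h4
    have h10 : (((N + 1) % T : ℕ) : ℝ) ≤ T := by exact_mod_cast h3.le
    have h11 : (0 : ℝ) ≤ (((N + 1) % T : ℕ) : ℝ) := by positivity
    rw [abs_le]
    constructor <;> nlinarith
  have hT' : Tendsto (fun N : ℕ => (2 * (T : ℝ) + 1) / N) atTop (𝓝 0) :=
    tendsto_const_div_atTop_nhds_zero_nat _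
  rw [tendsto_iff_norm_sub_tendsto_zero]
  refine squeeze_zero' (Eventually.of_forall fun _ => norm_nonneg _) ?_ hT'
  filter_upwards [eventually_gt_atTop 0] with N hN
  have hNr : (0 : ℝ) < N := by exact_mod_cast hN
  rw [hset, Real.norm_eq_abs]
  have : (Nat.count P (N + 1) : ℝ) / N - (Nat.count P T : ℝ) / T =
      ((Nat.count P (N + 1) : ℝ) - N * ((Nat.count P T : ℝ) / T)) / N := by
    field_simp
  rw [this, abs_div, abs_of_pos hNr]
  exact div_le_div_of_nonneg_right (hb N) hNr.le

end Q250.RP
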