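import Pool.Agent.Q250.RP

/-! Odd densities along doubling divisibility chains. -/

set_option autoImplicit false

open Filter Topology Finset

namespace Q250.RP

variable (a : ℕ → ℕ)

theorem chain_dvd (hd : ∀ i, 2 * a i ∣ a (i + 1)) {i k : ℕ} (hik : i ≤ k) : 2 * a i ∣ a (k + 1) := by
  induction k, hik using Nat.le_induction with
  | base => exact hd i
  | succ k _ ih => exact ih.trans ((Dvd.intro_left 2 rfl).trans (hd (k + 1)))

/-- the digit condition -/
def Good (k n : ℕ) : Prop := ∀ i, 1 ≤ i → i ≤ k → Even (n / a i)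

noncomputable instance (k : ℕ) : DecidablePred (Good a k) := fun _ => Classical.dec _

theorem even_sub_div (ha : ∀ i, 0 < a i) (hd : ∀ i, 2 * a i ∣ a (i + 1)) {i k j n : ℕ} (hik : i ≤ k)
    (hj : j * a (k + 1) ≤ n) : Even ((n - j * a (k + 1)) / a i) ↔ Even (n / a i) := by
  obtain ⟨m, hm⟩ := chain_dvd a hd hik
  have e : n = (n - j * a (k + 1)) + a i * (2 * (m * j)) := by
    have : j * a (k + 1) = a i * (2 * (m * j)) := by rw [hm]; ring
    omega
  conv_rhs => rw [e, Nat.add_mul_div_left _ _ (ha i)]
  rw [Nat.even_add]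
  simp

theorem odd_rp_iff (ha : ∀ i, 0 < a i) (h0 : a 0 = 1) (hd : ∀ i, 2 * a i ∣ a (i + 1)) (k : ℕ) :
    ∀ n, Odd (rp a (k + 1) n) ↔ Good a k n := by
  induction k with
  | zero =>
    intro n
    rw [zero_add, rp_one a ha, h0]
    simp only [one_dvd, if_true, odd_one, true_iff]
    intro i h1 h2
    omega
  | succ k ih =>
    intro n
    rw [rp_succ a ha]
    have hpar : ∀ j ∈ range (n / a (k + 1) + 1),
        (Odd (rp a (k + 1) (n - j * a (k + 1))) ↔ Good a k n) := by
      intro j hj
      rw [mem_range] at hj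
      have h2 := (Nat.le_div_iff_mul_le (ha (k + 1))).1 (Nat.lt_succ_iff.1 hj)
      rw [ih]
      unfold Good
      constructor
      · intro h i h1 hi
        exact (even_sub_div a ha hd hi h2).1 (h i h1 hi)
      · intro h i h1 hi
        exact (even_sub_div a ha hd hi h2).2 (h i h1 hi)
    have hG : Good a (k + 1) n ↔ Good a k n ∧ Even (n / a (k + 1)) := by
      unfold Good
      constructor
      · intro h
        exact ⟨fun i h1 h2 => h i h1 (by omega), h (k + 1) (by omega) le_rfl⟩
      · rintro ⟨h1, h2⟩ i hi1 hi2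
        rcases Nat.lt_or_ge k i with h | h
        · have : i = k + 1 := by omega
          rw [this]; exact h2
        · exact h1 i hi1 h
    rw [hG]
    by_cases hg : Good a k n
    · have hz : ((∑ j ∈ range (n / a (k + 1) + 1), rp a (k + 1) (n - j * a (k + 1)) : ℕ) : ZMod 2) =
          ((n / a (k + 1) + 1 : ℕ) : ZMod 2) := by
        rw [Nat.cast_sum]
        rw [Finset.sum_congr rfl (g := fun _ => (1 : ZMod 2))]
        · simp
        · intro j hj
          exact (ZMod.natCast_eq_one_iff_odd).2 ((hpar j hj).2 hg)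
      rw [← ZMod.natCast_eq_one_iff_odd, hz, ZMod.natCast_eq_one_iff_odd]
      simp only [hg, true_and]
      rw [Nat.odd_add_one, Nat.not_odd_iff_even]
    · have hz : Even (∑ j ∈ range (n / a (k + 1) + 1), rp a (k + 1) (n - j * a (k + 1))) := by
        apply Finset.even_sum
        intro j hj
        rw [← Nat.not_odd_iff_even, hpar j hj]
        exact hg
      rw [← Nat.not_even_iff_odd]
      simp [hg, hz]

theorem good_periodic (ha : ∀ i, 0 < a i) (hd : ∀ i, 2 * a i ∣ a (i + 1)) (k n : ℕ) :
    Good a k (n + 2 * a k) ↔ Good a k n := by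
  have key : ∀ i, i ≤ k → (Even ((n + 2 * a k) / a i) ↔ Even (n / a i)) := by
    intro i hi
    have : ∃ m, a k = a i * m := by
      rcases Nat.eq_or_lt_of_le hi with h | h
      · exact ⟨1, by rw [h, mul_one]⟩
      · obtain ⟨m, hm⟩ := chain_dvd a hd (show i ≤ k - 1 by omega)
        rw [show k - 1 + 1 = k by omega] at hm
        exact ⟨2 * m, by rw [hm]; ring⟩
    obtain ⟨m, hm⟩ := this
    have e : n + 2 * a k = n + a i * (2 * m) := by rw [hm]; ring
    rw [e, Nat.add_mul_div_left _ _ (ha i), Nat.even_add]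
    simp
  unfold Good
  constructor
  · intro h i h1 h2
    exact (key i h2).1 (h i h1 h2)
  · intro h i h1 h2
    exact (key i h2).2 (h i h1 h2)

theorem count_good (ha : ∀ i, 0 < a i) (h0 : a 0 = 1) (hd : ∀ i, 2 * a i ∣ a (i + 1)) (k : ℕ) :
    Nat.count (Good a k) (2 * a k) * 2 ^ k = 2 * a k := by
  induction k with
  | zero =>
    rw [h0]
    have : ∀ n, Good a 0 n := fun n i h1 h2 => by omega
    rw [pow_zero, mul_one, mul_one]
    simp [Nat.count_eq_card_filter_range, this]
  | succ k ih =>
    obtain ⟨m, hm⟩ := hd k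
    have h1 : Nat.count (Good a (k + 1)) (2 * a (k + 1)) = Nat.count (Good a k) (a (k + 1)) := by
      rw [two_mul, Nat.count_add]
      have e1 : Nat.count (Good a (k + 1)) (a (k + 1)) = Nat.count (Good a k) (a (k + 1)) := by
        rw [Nat.count_eq_card_filter_range, Nat.count_eq_card_filter_range]
        congr 1
        apply Finset.filter_congr
        intro n hn
        rw [mem_range] at hn
        unfold Good
        constructor
        · intro h i h1 h2
          exact h i h1 (by omega)
        · intro h i h1 h2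
          rcases Nat.lt_or_ge k i with h' | h'
          · have : i = k + 1 := by omega
            rw [this, Nat.div_eq_of_lt hn]
            exact Even.zero
          · exact h i h1 h'
      have e2 : Nat.count (fun x => Good a (k + 1) (a (k + 1) + x)) (a (k + 1)) = 0 := by
        rw [Nat.count_eq_card_filter_range, Finset.card_eq_zero, Finset.filter_eq_empty_iff]
        intro x hx hg
        rw [mem_range] at hx
        have h3 := hg (k + 1) (by omega) le_rfl
        have h4 : (a (k + 1) + x) / a (k + 1) = 1 := by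
          rw [Nat.add_div_left _ (ha (k + 1)), Nat.div_eq_of_lt hx]
        rw [h4] at h3
        exact absurd h3 (by decide)
      rw [e1, e2]
      rfl
    have h2 := count_add_period (Good a k) (2 * a k) (good_periodic a ha hd k) m 0
    rw [add_zero, Nat.count_zero, add_zero] at h2
    rw [h1]
    have h3 : a (k + 1) = m * (2 * a k) := by rw [hm]; ring
    rw [h3, h2, pow_succ]
    calc m * Nat.count (Good a k) (2 * a k) * (2 ^ k * 2)
        = m * (Nat.count (Good a k) (2 * a k) * 2 ^ k) * 2 := by ring
      _ = m * (2 * a k) * 2 := by rw [ih]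
      _ = 2 * (m * (2 * a k)) := by ring

theorem chain_density (ha : ∀ i, 0 < a i) (h0 : a 0 = 1) (hd : ∀ i, 2 * a i ∣ a (i + 1)) (k : ℕ) :
    Tendsto (fun N : ℕ => (({n : ℕ | n ≤ N ∧ Odd (rp a (k + 1) n)}.ncard : ℕ) : ℝ) / N) atTop
      (𝓝 ((1 / 2 : ℝ) ^ k)) := by
  have h := tendsto_count_periodic (Good a k) (2 * a k) (by have := ha k; omega)
    (good_periodic a ha hd k)
  have hc := count_good a ha h0 hd k
  have e : ((Nat.count (Good a k) (2 * a k) : ℝ) / ((2 * a k : ℕ) : ℝ)) = (1 / 2 : ℝ) ^ k := by
    have h1 : (0 : ℝ) < ((2 * a k : ℕ) : ℝ) := by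
      have := ha k
      exact_mod_cast (by omega : 0 < 2 * a k)
    have h2 : ((Nat.count (Good a k) (2 * a k) : ℝ)) * 2 ^ k = ((2 * a k : ℕ) : ℝ) := by
      exact_mod_cast hc
    rw [div_eq_iff h1.ne', ← h2, one_div, inv_pow]
    field_simp
  rw [e] at h
  refine h.congr fun N => ?_
  congr 3
  ext n
  simp only [Set.mem_ofPred_eq, odd_rp_iff a ha h0 hd k n]

end Q250.RP
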