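import Pool.Agent.Q250.RP

/-! Odd densities of restricted partition functions: independence of the coprime parts. -/

set_option autoImplicit false

open Filter Topology Finset Polynomial

namespace Q250.RP

/-- the sign character of `ZMod 2` -/
def sg (x : ZMod 2) : ℤ := if x = 0 then 1 else -1

theorem sg_add (x y : ZMod 2) : sg (x + y) = sg x * sg y := by
  revert x y; decide

theorem abs_sg (x : ZMod 2) : |sg x| = 1 := by
  revert x; decide

/-- CRT for sums -/
theorem sum_crt {M A : ℕ} (hM : 0 < M) (hA : 0 < A) (h : Nat.Coprime M A) (u v : ℕ → ℤ)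
    (hu : ∀ n, u (n + M) = u n) (hv : ∀ n, v (n + A) = v n) :
    ∑ n ∈ range (M * A), u n * v n = (∑ n ∈ range M, u n) * ∑ n ∈ range A, v n := by
  have hmod : ∀ {w : ℕ → ℤ} {T : ℕ}, (∀ n, w (n + T) = w n) → ∀ n, w n = w (n % T) := by
    intro w T hw n
    have : ∀ q r, w (r + q * T) = w r := by
      intro q
      induction q with
      | zero => intro r; simp
      | succ q ih => intro r; rw [Nat.succ_mul, ← Nat.add_assoc, hw, ih]
    conv_lhs => rw [← Nat.mod_add_div n T, mul_comm, this]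
  rw [Finset.sum_mul_sum, ← Finset.sum_product']
  refine Finset.sum_bij' (fun n _ => (n % M, n % A))
    (fun p _ => (Nat.chineseRemainder h p.1 p.2 : ℕ)) ?_ ?_ ?_ ?_ ?_
  · intro n _
    simp [mem_product, Nat.mod_lt _ hM, Nat.mod_lt _ hA]
  · intro p _
    rw [mem_range]
    exact Nat.chineseRemainder_lt_mul h p.1 p.2 hM.ne' hA.ne'
  · intro n hn
    rw [mem_range] at hn
    simp only
    have h1 := (Nat.chineseRemainder h (n % M) (n % A)).2
    have h2 := Nat.chineseRemainder_lt_mul h (n % M) (n % A) hM.ne' hA.ne'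
    have h3 : (Nat.chineseRemainder h (n % M) (n % A) : ℕ) ≡ n [MOD M * A] := by
      rw [← Nat.modEq_and_modEq_iff_modEq_mul h]
      exact ⟨h1.1.trans (Nat.mod_modEq _ _), h1.2.trans (Nat.mod_modEq _ _)⟩
    exact Nat.ModEq.eq_of_lt_of_lt h3 h2 hn
  · intro p hp
    rw [mem_product, mem_range, mem_range] at hp
    have h1 := (Nat.chineseRemainder h p.1 p.2).2
    apply Prod.ext
    · simp only
      rw [show ((Nat.chineseRemainder h p.1 p.2 : ℕ)) % M = p.1 % M from h1.1, Nat.mod_eq_of_lt hp.1]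
    · simp only
      rw [show ((Nat.chineseRemainder h p.1 p.2 : ℕ)) % A = p.2 % A from h1.2, Nat.mod_eq_of_lt hp.2]
  · intro n _
    simp only
    rw [← hmod hu n, ← hmod hv n]

/-- `1 + X + ⋯ + X^(a-1)` -/
noncomputable def QQ (a : ℕ) : (ZMod 2)[X] := ∑ t ∈ range a, X ^ t

theorem QQ_mul (a : ℕ) : (1 - X) * QQ a = 1 - X ^ a := by
  unfold QQ; exact mul_neg_geom_sum X a

theorem QQ_coeff (a n : ℕ) : (QQ a).coeff n = if n < a then 1 else 0 := by
  unfold QQ
  rw [finsetSum_coeff]
  simp only [coeff_X_pow]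
  simp [Finset.sum_ite_eq]

theorem one_sub_X_ne : (1 - X : (ZMod 2)[X]) ≠ 0 := by
  intro h
  have := congrArg (fun p => coeff p 1) h
  simp [coeff_one, coeff_X] at this

/-- degree of `QQ` -/
theorem QQ_degree {a : ℕ} (ha : 1 < a) : 0 < (QQ a).degree := by
  have h : (QQ a).coeff (a - 1) ≠ 0 := by
    rw [QQ_coeff, if_pos (by omega)]; exact one_ne_zero
  have h2 := le_degree_of_ne_zero h
  refine lt_of_lt_of_le ?_ h2
  exact_mod_cast (by omega : 0 < a - 1)

theorem coprime_one_sub_QQ {a : ℕ} (ha : Odd a) : IsCoprime (1 - X : (ZMod 2)[X]) (QQ a) := by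
  -- QQ a ≡ a mod (1 - X)
  have h1 : (1 - X : (ZMod 2)[X]) ∣ QQ a - C ((a : ZMod 2)) := by
    have : (X - C 1 : (ZMod 2)[X]) ∣ QQ a - C ((QQ a).eval 1) := X_sub_C_dvd_sub_C_eval
    have e : (QQ a).eval 1 = (a : ZMod 2) := by
      unfold QQ; simp [eval_finsetSum]
    rw [e] at this
    have e2 : (1 - X : (ZMod 2)[X]) = -(X - C 1) := by rw [C_1]; ring
    rw [e2]
    exact neg_dvd.2 this
  obtain ⟨w, hw⟩ := h1
  have h2 : (a : ZMod 2) = 1 := (ZMod.natCast_eq_one_iff_odd).2 ha
  rw [h2, C_1] at hw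
  exact ⟨-w, 1, by linear_combination hw⟩

theorem coprime_QQ_pow {a b : ℕ} (ha : Odd a) (hb : 0 < b) (h : Nat.Coprime a b) :
    IsCoprime (QQ a) (1 - X ^ b) := by
  -- first QQ a and QQ b
  have hab : IsCoprime (QQ a) (QQ b) := by
    obtain ⟨u, v, huv⟩ : ∃ u v : ℕ, a * u = b * v + 1 := by
      rcases Nat.eq_or_lt_of_le (Nat.one_le_iff_ne_zero.2 hb.ne') with hb1 | hb1
      · obtain ⟨k, hk⟩ := ha
        exact ⟨1, 2 * k, by rw [← hb1]; omega⟩
      · obtain ⟨u, hu⟩ := Nat.exists_mul_mod_eq_one_of_coprime h hb1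
        exact ⟨u, a * u / b, by rw [← hu.2]; exact (Nat.div_add_mod _ _).symm⟩
    have h1 : (1 - X ^ a : (ZMod 2)[X]) ∣ 1 - X ^ (a * u) := by
      have := sub_dvd_pow_sub_pow (1 : (ZMod 2)[X]) (X ^ a) u
      rwa [one_pow, ← pow_mul] at this
    have h2 : (1 - X ^ b : (ZMod 2)[X]) ∣ 1 - X ^ (b * v) := by
      have := sub_dvd_pow_sub_pow (1 : (ZMod 2)[X]) (X ^ b) v
      rwa [one_pow, ← pow_mul] at this
    obtain ⟨s, hs⟩ := h1
    obtain ⟨t, ht⟩ := h2
    refine ⟨s, -(X * t), ?_⟩
    have h3 : (1 - X : (ZMod 2)[X]) * (s * QQ a + -(X * t) * QQ b) = (1 - X) * 1 := by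
      have e1 := QQ_mul a
      have e2 := QQ_mul b
      calc (1 - X : (ZMod 2)[X]) * (s * QQ a + -(X * t) * QQ b)
          = ((1 - X) * QQ a) * s - X * (((1 - X) * QQ b) * t) := by ring
        _ = (1 - X ^ a) * s - X * ((1 - X ^ b) * t) := by rw [e1, e2]
        _ = (1 - X ^ (a * u)) - X * (1 - X ^ (b * v)) := by rw [← hs, ← ht]
        _ = (1 - X) * 1 := by rw [huv, pow_succ]; ring
    exact mul_left_cancel₀ one_sub_X_ne h3
  rw [← QQ_mul b]
  exact (coprime_one_sub_QQ ha).symm.mul_right hab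

/-- periodicity of power series -/
theorem per_of_dvd {Φ : PowerSeries (ZMod 2)} {D r : (ZMod 2)[X]} {M : ℕ}
    (hD : D ∣ 1 - X ^ M) (hM : 0 < M) (hr : r.degree < D.degree)
    (h : Φ * (D : PowerSeries (ZMod 2)) = (r : PowerSeries (ZMod 2))) (n : ℕ) :
    PowerSeries.coeff (n + M) Φ = PowerSeries.coeff n Φ := by
  obtain ⟨E, hE⟩ := hD
  have hne : (1 - X ^ M : (ZMod 2)[X]) ≠ 0 := by
    intro h0
    have := congrArg (fun p => coeff p 0) h0
    simp [coeff_X_pow, hM.ne] at this
  have hEne : E ≠ 0 := by rintro rfl; rw [mul_zero] at hE; exact hne hE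
  have h1 : Φ * ((1 - X ^ M : (ZMod 2)[X]) : PowerSeries (ZMod 2)) =
      ((r * E : (ZMod 2)[X]) : PowerSeries (ZMod 2)) := by
    rw [hE, Polynomial.coe_mul, Polynomial.coe_mul, ← mul_assoc, h]
  have hdeg : (r * E).degree < M := by
    have h2 : (r * E).degree < (D * E).degree := by
      rw [degree_mul, degree_mul]
      exact WithBot.add_lt_add_right (by rw [Ne, degree_eq_bot]; exact hEne) hr
    refine lt_of_lt_of_le h2 ?_
    rw [← hE]
    refine (degree_sub_le _ _).trans ?_
    rw [degree_one, degree_X_pow]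
    exact max_le (by exact_mod_cast Nat.zero_le M) le_rfl
  have h3 := congrArg (PowerSeries.coeff (n + M)) h1
  rw [Polynomial.coeff_coe, coeff_eq_zero_of_degree_lt (lt_of_lt_of_le hdeg
    (by exact_mod_cast Nat.le_add_left M n)), Polynomial.coe_sub, Polynomial.coe_one,
    Polynomial.coe_pow, Polynomial.coe_X, mul_sub, mul_one, map_sub,
    PowerSeries.coeff_mul_X_pow] at h3
  exact sub_eq_zero.1 h3

theorem sum_sg_bound (M : ℕ) (w : ℕ → ZMod 2) : |∑ n ∈ range M, sg (w n)| ≤ M := by
  refine (Finset.abs_sum_le_sum_abs _ _).trans ?_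
  simp [abs_sg]

/-- a non-constant `±1` function on an odd number of points -/
theorem sum_sg_bound_ne {A : ℕ} (w : ℕ → ZMod 2)
    (hw : ¬ ∃ c, ∀ n < A, w n = c) : |∑ n ∈ range A, sg (w n)| ≤ (A : ℤ) - 2 := by
  have h0 : ∃ n < A, w n = 0 := by
    by_contra hcon
    push Not at hcon
    apply hw
    refine ⟨1, fun n hn => ?_⟩
    have := hcon n hn
    revert this
    generalize w n = x
    revert x; decide
  have h1 : ∃ n < A, w n = 1 := by
    by_contra hcon
    push Not at hcon
    apply hw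
    refine ⟨0, fun n hn => ?_⟩
    have := hcon n hn
    revert this
    generalize w n = x
    revert x; decide
  obtain ⟨n0, hn0, hw0⟩ := h0
  obtain ⟨n1, hn1, hw1⟩ := h1
  have hne : n0 ≠ n1 := by rintro rfl; rw [hw0] at hw1; exact absurd hw1 (by decide)
  rw [← Finset.add_sum_erase _ _ (mem_range.2 hn0),
    ← Finset.add_sum_erase _ _ (Finset.mem_erase.2 ⟨hne.symm, mem_range.2 hn1⟩), hw0, hw1]
  have h2 : |∑ n ∈ ((range A).erase n0).erase n1, sg (w n)| ≤ (A : ℤ) - 2 := by
    refine (Finset.abs_sum_le_sum_abs _ _).trans ?_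
    simp only [abs_sg, sum_const, nsmul_eq_mul, mul_one]
    rw [Finset.card_erase_of_mem (Finset.mem_erase.2 ⟨hne.symm, mem_range.2 hn1⟩),
      Finset.card_erase_of_mem (mem_range.2 hn0), card_range]
    omega
  have e : sg (0 : ZMod 2) + (sg (1 : ZMod 2) + ∑ n ∈ ((range A).erase n0).erase n1, sg (w n)) =
      ∑ n ∈ ((range A).erase n0).erase n1, sg (w n) := by
    have : sg (0 : ZMod 2) + sg (1 : ZMod 2) = 0 := by decide
    linarith
  rw [e]
  exact h2

/-- partial fractions with two factors, and non-vanishing -/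
theorem two_parts {D Q r : (ZMod 2)[X]} (hDQ : IsCoprime D Q) (hQ0 : Q ≠ 0)
    (hr : r.degree < (D * Q).degree) :
    ∃ u v : (ZMod 2)[X], r = u * Q + v * D ∧ u.degree < D.degree ∧ v.degree < Q.degree := by
  obtain ⟨s, t, hst⟩ := hDQ
  -- r = r s D + r t Q
  refine ⟨(r * s) / Q * D + r * t, (r * s) % Q, ?_, ?_, ?_⟩
  · have h := EuclideanDomain.div_add_mod (r * s) Q
    linear_combination (-r) * hst - D * h
  · have hv : ((r * s) % Q).degree < Q.degree := EuclideanDomain.mod_lt _ hQ0
    have e : ((r * s) / Q * D + r * t) * Q = r - (r * s) % Q * D := by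
      have h := EuclideanDomain.div_add_mod (r * s) Q
      linear_combination (r) * hst + D * h
    have hD0 : D ≠ 0 := by
      rintro rfl
      rw [zero_mul, degree_zero] at hr
      exact absurd hr (by simp)
    have h2 : (((r * s) / Q * D + r * t) * Q).degree < (D * Q).degree := by
      rw [e]
      refine lt_of_le_of_lt (degree_sub_le _ _) (max_lt hr ?_)
      rw [mul_comm, degree_mul, degree_mul]
      exact WithBot.add_lt_add_left (by rw [Ne, degree_eq_bot]; exact hD0) hv
    rw [degree_mul, degree_mul] at h2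
    exact lt_of_add_lt_add_right h2
  · exact EuclideanDomain.mod_lt _ hQ0

/-- Main induction: a rational function whose denominator is `D ∏ QQ (a i)` -/
theorem main_bound (a : ℕ → ℕ) (J : Finset ℕ) (hodd : ∀ i ∈ J, Odd (a i)) (h1 : ∀ i ∈ J, 1 < a i)
    (hco : ∀ i ∈ J, ∀ j ∈ J, i ≠ j → Nat.Coprime (a i) (a j)) :
    ∀ (D r : (ZMod 2)[X]) (M : ℕ) (Φ : PowerSeries (ZMod 2)), 0 < M → D ∣ 1 - X ^ M →
      (∀ i ∈ J, Nat.Coprime (a i) M) → (∀ i ∈ J, IsCoprime r (QQ (a i))) →
      r.degree < (D * ∏ i ∈ J, QQ (a i)).degree →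
      Φ * ((D * ∏ i ∈ J, QQ (a i) : (ZMod 2)[X]) : PowerSeries (ZMod 2)) =
        (r : PowerSeries (ZMod 2)) →
      (∀ n, PowerSeries.coeff (n + M * ∏ i ∈ J, a i) Φ = PowerSeries.coeff n Φ) ∧
      |∑ n ∈ range (M * ∏ i ∈ J, a i), sg (PowerSeries.coeff n Φ)| ≤
        M * ∏ i ∈ J, ((a i : ℤ) - 2) := by
  induction J using Finset.induction_on with
  | empty =>
    intro D r M Φ hM hD _ _ hr hΦ
    rw [prod_empty, mul_one] at hr hΦ
    rw [prod_empty, prod_empty, mul_one, mul_one]
    exact ⟨per_of_dvd hD hM hr hΦ, sum_sg_bound M _⟩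
  | insert i J hi ih =>
    intro D r M Φ hM hD hMco hrco hr hΦ
    have hodd' : ∀ j ∈ J, Odd (a j) := fun j hj => hodd j (mem_insert_of_mem hj)
    have h1' : ∀ j ∈ J, 1 < a j := fun j hj => h1 j (mem_insert_of_mem hj)
    have hco' : ∀ j ∈ J, ∀ l ∈ J, j ≠ l → Nat.Coprime (a j) (a l) :=
      fun j hj l hl hjl => hco j (mem_insert_of_mem hj) l (mem_insert_of_mem hl) hjl
    have hai : 1 < a i := h1 i (mem_insert_self _ _)
    have hapos : ∀ j ∈ J, 0 < a j := fun j hj => by have := h1' j hj; omega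
    rw [prod_insert hi] at hr hΦ
    set D' : (ZMod 2)[X] := D * ∏ j ∈ J, QQ (a j) with hD'
    set Q : (ZMod 2)[X] := QQ (a i) with hQ
    have hQ0 : Q ≠ 0 := by
      intro h
      have := QQ_degree hai
      rw [← hQ, h, degree_zero] at this
      exact absurd this (by simp)
    have hQD : IsCoprime D Q := by
      have := coprime_QQ_pow (hodd i (mem_insert_self _ _)) hM (hMco i (mem_insert_self _ _))
      exact (IsCoprime.of_isCoprime_of_dvd_right this hD).symm
    have hQJ : ∀ j ∈ J, IsCoprime (QQ (a j)) Q := by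
      intro j hj
      have hji : j ≠ i := by rintro rfl; exact hi hj
      have h2 := coprime_QQ_pow (hodd' j hj) (b := a i) (by omega)
        (hco j (mem_insert_of_mem hj) i (mem_insert_self _ _) hji)
      refine IsCoprime.of_isCoprime_of_dvd_right h2 ?_
      rw [← QQ_mul]
      exact Dvd.intro_left _ rfl
    have hcop : IsCoprime D' Q := by
      rw [hD']
      exact hQD.mul_left (IsCoprime.prod_left hQJ)
    have hDQ : D * (Q * ∏ j ∈ J, QQ (a j)) = D' * Q := by rw [hD']; ring
    rw [hDQ] at hr hΦ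
    obtain ⟨u, v, hruv, hu, hv⟩ := two_parts hcop hQ0 hr
    -- the two power series
    have hDc : PowerSeries.constantCoeff ((D' : (ZMod 2)[X]) : PowerSeries (ZMod 2)) ≠ 0 := by
      intro h0
      have h2 : (D' * Q).coeff 0 ≠ 0 ∨ (D' * Q).coeff 0 = 0 := by tauto
      -- D' divides a polynomial with constant coefficient 1
      have h3 : D.coeff 0 ≠ 0 := by
        obtain ⟨E, hE⟩ := hD
        intro h4
        have := congrArg (fun p => coeff p 0) hE
        rw [mul_coeff_zero, h4, zero_mul] at this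
        simp [coeff_X_pow, hM.ne] at this
      have h4 : ∀ b : ℕ, 0 < b → (QQ b).coeff 0 = 1 := by
        intro b hb; rw [QQ_coeff, if_pos hb]
      rw [← PowerSeries.coeff_zero_eq_constantCoeff_apply, Polynomial.coeff_coe, hD',
        mul_coeff_zero, coeff_zero_prod] at h0
      rw [Finset.prod_congr rfl (fun j hj => h4 (a j) (hapos j hj)), prod_const_one, mul_one] at h0
      exact h3 h0
    set Φ₁ : PowerSeries (ZMod 2) := (u : PowerSeries (ZMod 2)) * (D' : PowerSeries (ZMod 2))⁻¹
      with hΦ₁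
    have e1 : Φ₁ * ((D' : (ZMod 2)[X]) : PowerSeries (ZMod 2)) = (u : PowerSeries (ZMod 2)) := by
      rw [hΦ₁, mul_assoc, PowerSeries.inv_mul_cancel _ hDc, mul_one]
    set Φ₂ : PowerSeries (ZMod 2) := Φ - Φ₁ with hΦ₂
    have hD'ne : ((D' : (ZMod 2)[X]) : PowerSeries (ZMod 2)) ≠ 0 := by
      intro h; rw [h] at hDc; simp at hDc
    have e2 : Φ₂ * ((Q : (ZMod 2)[X]) : PowerSeries (ZMod 2)) = (v : PowerSeries (ZMod 2)) := by
      apply mul_right_cancel₀ hD'ne
      have h3 : (Φ * (Q : PowerSeries (ZMod 2))) * (D' : PowerSeries (ZMod 2)) =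
          (u : PowerSeries (ZMod 2)) * Q + v * D' := by
        rw [mul_assoc, ← Polynomial.coe_mul, mul_comm Q D', hΦ, hruv]
        push_cast
        ring
      calc Φ₂ * (Q : PowerSeries (ZMod 2)) * (D' : PowerSeries (ZMod 2))
          = (Φ * (Q : PowerSeries (ZMod 2))) * (D' : PowerSeries (ZMod 2)) -
            (Φ₁ * (D' : PowerSeries (ZMod 2))) * Q := by rw [hΦ₂]; ring
        _ = (u : PowerSeries (ZMod 2)) * Q + v * D' - u * Q := by rw [h3, e1]
        _ = (v : PowerSeries (ZMod 2)) * D' := by ring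
    -- coprimality of u
    have hu' : ∀ j ∈ J, IsCoprime u (QQ (a j)) := by
      intro j hj
      have h2 : IsCoprime (u * Q) (QQ (a j)) := by
        have h3 : QQ (a j) ∣ v * D' := by
          rw [hD']
          exact ((Finset.dvd_prod_of_mem (fun j => QQ (a j)) hj).mul_left _).mul_left _
        obtain ⟨w, hw⟩ := h3
        have h4 := hrco j (mem_insert_of_mem hj)
        rw [hruv, hw] at h4
        exact (IsCoprime.add_mul_left_left_iff).1 h4
      exact (IsCoprime.mul_left_iff.1 h2).1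
    have hv' : IsCoprime v Q := by
      have h4 := hrco i (mem_insert_self _ _)
      rw [hruv, ← hQ, mul_comm u Q, add_comm] at h4
      have h5 := (IsCoprime.add_mul_left_left_iff).1 h4
      exact (IsCoprime.mul_left_iff.1 h5).1
    obtain ⟨hp1, hb1⟩ := ih hodd' h1' hco' D u M Φ₁ hM hD
      (fun j hj => hMco j (mem_insert_of_mem hj)) hu' hu e1
    have hQdvd : Q ∣ 1 - X ^ (a i) := by
      rw [← QQ_mul]; exact Dvd.intro_left _ rfl
    have hp2 := per_of_dvd hQdvd (by omega) hv e2
    -- non-constancy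
    have hnc : ¬ ∃ c, ∀ n < a i, PowerSeries.coeff n Φ₂ = c := by
      rintro ⟨c, hc⟩
      have hall : ∀ n, PowerSeries.coeff n Φ₂ = c := by
        intro n
        induction n using Nat.strong_induction_on with
        | _ n ihn =>
          rcases Nat.lt_or_ge n (a i) with h | h
          · exact hc n h
          · have := hp2 (n - a i)
            rw [Nat.sub_add_cancel h] at this
            rw [this]
            exact ihn _ (by omega)
      -- Φ₂ * (1 - X) = c
      have h3 : Φ₂ * (1 - PowerSeries.X) = PowerSeries.C c := by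
        ext n
        rw [mul_sub, mul_one, map_sub]
        rcases n with _ | n
        · rw [PowerSeries.coeff_zero_mul_X, hall]
          simp
        · rw [PowerSeries.coeff_succ_mul_X, hall, hall, PowerSeries.coeff_C]
          simp
      have h4 : (v * (1 - X) : (ZMod 2)[X]) = C c * Q := by
        have h5 : ((v * (1 - X) : (ZMod 2)[X]) : PowerSeries (ZMod 2)) =
            ((C c * Q : (ZMod 2)[X]) : PowerSeries (ZMod 2)) := by
          push_cast
          rw [← e2, ← h3]
          ring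
        exact Polynomial.coe_injective _ h5
      have h6 : Q ∣ v * (1 - X) := ⟨C c, by rw [h4]; ring⟩
      have h7 : Q ∣ 1 - X := hv'.symm.dvd_of_dvd_mul_left h6
      have h8 : IsUnit Q := (coprime_one_sub_QQ (hodd i (mem_insert_self _ _))).symm.isUnit_of_dvd h7
      have h9 := degree_eq_zero_of_isUnit h8
      have h10 := QQ_degree hai
      rw [← hQ, h9] at h10
      exact lt_irrefl _ h10
    have hb2 := sum_sg_bound_ne (A := a i) (fun n => PowerSeries.coeff n Φ₂) hnc
    have hcopM : Nat.Coprime (M * ∏ j ∈ J, a j) (a i) := by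
      apply Nat.Coprime.mul_left
      · exact (hMco i (mem_insert_self _ _)).symm
      · apply Nat.Coprime.prod_left
        intro j hj
        exact hco j (mem_insert_of_mem hj) i (mem_insert_self _ _) (by rintro rfl; exact hi hj)
    have hsplit : ∀ n, sg (PowerSeries.coeff n Φ) =
        sg (PowerSeries.coeff n Φ₁) * sg (PowerSeries.coeff n Φ₂) := by
      intro n
      rw [← sg_add, ← map_add]
      congr 2
      rw [hΦ₂]; ring
    have hperiod : M * ∏ j ∈ insert i J, a j = (M * ∏ j ∈ J, a j) * a i := by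
      rw [prod_insert hi]; ring
    have hMJ : 0 < M * ∏ j ∈ J, a j := Nat.mul_pos hM (Finset.prod_pos hapos)
    constructor
    · intro n
      have hpA : ∀ {Ψ : PowerSeries (ZMod 2)} {T : ℕ},
          (∀ n, PowerSeries.coeff (n + T) Ψ = PowerSeries.coeff n Ψ) →
          ∀ q n, PowerSeries.coeff (n + q * T) Ψ = PowerSeries.coeff n Ψ := by
        intro Ψ T hT q
        induction q with
        | zero => intro n; simp
        | succ q ihq => intro n; rw [Nat.succ_mul, ← Nat.add_assoc, hT, ihq]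
      have h5 : Φ = Φ₁ + Φ₂ := by rw [hΦ₂]; ring
      rw [hperiod, h5, map_add, map_add]
      congr 1
      · rw [mul_comm (M * ∏ j ∈ J, a j) (a i), hpA hp1]
      · rw [hpA hp2]
    · rw [hperiod]
      simp only [hsplit]
      rw [sum_crt hMJ (by omega) hcopM _ _ (fun n => by rw [hp1]) (fun n => by rw [hp2]), abs_mul,
        prod_insert hi]
      have hA2 : (0 : ℤ) ≤ (a i : ℤ) - 2 := by omega
      have hP2 : (0 : ℤ) ≤ M * ∏ j ∈ J, ((a j : ℤ) - 2) := by
        apply mul_nonneg (by positivity)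
        apply Finset.prod_nonneg
        intro j hj
        have := h1' j hj
        omega
      calc |∑ n ∈ range (M * ∏ j ∈ J, a j), sg (PowerSeries.coeff n Φ₁)| *
            |∑ n ∈ range (a i), sg (PowerSeries.coeff n Φ₂)|
          ≤ (M * ∏ j ∈ J, ((a j : ℤ) - 2)) * ((a i : ℤ) - 2) :=
            mul_le_mul hb1 hb2 (abs_nonneg _) hP2
        _ = _ := by ring

end Q250.RP
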