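import Pool.Agent.Q250.RPHalf

/-! Odd densities tending to one half. -/

set_option autoImplicit false

open Filter Topology Finset Polynomial

namespace Q250.RP

/-- generating series modulo 2 -/
noncomputable def gs (a : ℕ → ℕ) (k : ℕ) : PowerSeries (ZMod 2) :=
  PowerSeries.mk fun n => (rp a k n : ZMod 2)

theorem gs_zero (a : ℕ → ℕ) : gs a 0 = 1 := by
  ext n
  rw [gs, PowerSeries.coeff_mk, PowerSeries.coeff_one]
  split_ifs with h
  · rw [h, rp_zero_zero]; rfl
  · rw [rp_zero_pos _ _ h]; rfl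

theorem gs_succ (a : ℕ → ℕ) (ha : ∀ i, 0 < a i) (k : ℕ) :
    gs a (k + 1) * ((1 - X ^ (a k) : (ZMod 2)[X]) : PowerSeries (ZMod 2)) = gs a k := by
  ext n
  rw [Polynomial.coe_sub, Polynomial.coe_one, Polynomial.coe_pow, Polynomial.coe_X, mul_sub,
    mul_one, map_sub]
  rcases Nat.lt_or_ge n (a k) with h | h
  · rw [PowerSeries.coeff_mul_X_pow', if_neg (by omega), sub_zero, gs, gs, PowerSeries.coeff_mk,
      PowerSeries.coeff_mk, rp_succ a ha, Nat.div_eq_of_lt h]
    simp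
  · obtain ⟨m, rfl⟩ : ∃ m, n = m + a k := ⟨n - a k, by omega⟩
    rw [PowerSeries.coeff_mul_X_pow, gs, gs, PowerSeries.coeff_mk,
      PowerSeries.coeff_mk, PowerSeries.coeff_mk, rp_succ a ha, rp_succ a ha,
      Nat.add_div_right _ (ha k), Finset.sum_range_succ' (n := m / a k + 1)]
    have : ∀ j, m + a k - (j + 1) * a k = m - j * a k := by
      intro j; rw [Nat.succ_mul]; omega
    simp only [this]
    rw [zero_mul, Nat.sub_zero]
    push_cast
    ring

theorem gs_prod (a : ℕ → ℕ) (ha : ∀ i, 0 < a i) (k : ℕ) :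
    gs a k * ((∏ j ∈ range k, (1 - X ^ (a j)) : (ZMod 2)[X]) : PowerSeries (ZMod 2)) = 1 := by
  induction k with
  | zero => rw [gs_zero]; simp
  | succ k ih =>
    rw [prod_range_succ, mul_comm (∏ j ∈ range k, _), Polynomial.coe_mul, ← mul_assoc,
      gs_succ a ha, ih]

theorem one_sub_pow_ne {M : ℕ} (hM : 0 < M) : (1 - X ^ M : (ZMod 2)[X]) ≠ 0 := by
  intro h0
  have := congrArg (fun p => coeff p 0) h0
  simp [coeff_X_pow, hM.ne] at this

theorem one_sub_dvd {b M : ℕ} (h : b ∣ M) : (1 - X ^ b : (ZMod 2)[X]) ∣ 1 - X ^ M := by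
  obtain ⟨u, rfl⟩ := h
  have := sub_dvd_pow_sub_pow (1 : (ZMod 2)[X]) (X ^ b) u
  rwa [one_pow, ← pow_mul] at this

/-- the terms that are odd, larger than one and coprime to all the others -/
def Iso (a : ℕ → ℕ) : Set ℕ := {i | Odd (a i) ∧ 1 < a i ∧ ∀ j, j ≠ i → Nat.Coprime (a i) (a j)}

open Classical in
theorem density_bound (a : ℕ → ℕ) (ha : ∀ i, 0 < a i) (k : ℕ) (hk : 1 ≤ k) :
    ∃ δ : ℝ, Tendsto (fun N : ℕ => (({n : ℕ | n ≤ N ∧ Odd (rp a k n)}.ncard : ℕ) : ℝ) / N) atTop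
      (𝓝 δ) ∧ |δ - 1 / 2| ≤ ∏ i ∈ (range k).filter (· ∈ Iso a), (1 - 2 / (a i : ℝ)) := by
  set J := (range k).filter (· ∈ Iso a) with hJ
  set E := (range k).filter (fun i => ¬ i ∈ Iso a) with hE
  have hJi : ∀ i ∈ J, i ∈ Iso a := fun i hi => (mem_filter.1 hi).2
  set D : (ZMod 2)[X] := (1 - X) ^ J.card * ∏ j ∈ E, (1 - X ^ (a j)) with hD
  set M0 : ℕ := ∏ j ∈ E, a j with hM0
  set M : ℕ := M0 * 2 ^ k with hM
  have hM0pos : 0 < M0 := Finset.prod_pos fun j _ => ha j
  have hMpos : 0 < M := by positivity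
  have hcard : J.card + E.card = k := by
    rw [hJ, hE, Finset.card_filter_add_card_filter_not, card_range]
  have hDdvd : D ∣ 1 - X ^ M := by
    have h1 : (1 - X : (ZMod 2)[X]) ^ J.card ∣ (1 - X ^ M0) ^ J.card := by
      apply pow_dvd_pow_of_dvd
      have := one_sub_dvd (one_dvd M0)
      rwa [pow_one] at this
    have h2 : (∏ j ∈ E, (1 - X ^ (a j)) : (ZMod 2)[X]) ∣ (1 - X ^ M0) ^ E.card := by
      rw [← Finset.prod_const]
      apply Finset.prod_dvd_prod_of_dvd
      intro j hj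
      exact one_sub_dvd (Finset.dvd_prod_of_mem a hj)
    have h3 : D ∣ (1 - X ^ M0) ^ k := by
      rw [← hcard, pow_add]
      exact mul_dvd_mul h1 h2
    have h4 : ((1 - X ^ M0) ^ k : (ZMod 2)[X]) ∣ (1 - X ^ M0) ^ (2 ^ k) :=
      pow_dvd_pow _ (Nat.lt_two_pow_self).le
    have h5 : ((1 - X ^ M0) ^ (2 ^ k) : (ZMod 2)[X]) = 1 - X ^ M := by
      rw [sub_pow_char_pow, one_pow, ← pow_mul]
    rw [← h5]
    exact h3.trans h4
  have hprod : (∏ j ∈ range k, (1 - X ^ (a j)) : (ZMod 2)[X]) = D * ∏ i ∈ J, QQ (a i) := by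
    rw [← Finset.prod_filter_mul_prod_filter_not (range k) (· ∈ Iso a), ← hJ, ← hE, hD]
    have : (∏ j ∈ J, (1 - X ^ (a j)) : (ZMod 2)[X]) = (1 - X) ^ J.card * ∏ i ∈ J, QQ (a i) := by
      rw [← Finset.prod_const, ← Finset.prod_mul_distrib]
      apply Finset.prod_congr rfl
      intro j _
      rw [QQ_mul]
    rw [this]
    ring
  have hdeg : (1 : (ZMod 2)[X]).degree < (D * ∏ i ∈ J, QQ (a i)).degree := by
    rw [← hprod, degree_one]
    have h1 : (1 - X : (ZMod 2)[X]) ∣ ∏ j ∈ range k, (1 - X ^ (a j)) := by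
      have h2 : (1 - X : (ZMod 2)[X]) ∣ 1 - X ^ (a 0) := by
        have := one_sub_dvd (one_dvd (a 0))
        rwa [pow_one] at this
      exact h2.trans (Finset.dvd_prod_of_mem (fun j => (1 - X ^ (a j) : (ZMod 2)[X]))
        (mem_range.2 hk))
    have h2 : (∏ j ∈ range k, (1 - X ^ (a j)) : (ZMod 2)[X]) ≠ 0 :=
      Finset.prod_ne_zero_iff.2 fun j _ => one_sub_pow_ne (ha j)
    have h3 := degree_le_of_dvd h1 h2
    refine lt_of_lt_of_le ?_ h3
    have : (1 - X : (ZMod 2)[X]).degree = 1 := by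
      rw [← degree_neg, neg_sub]
      exact degree_X_sub_C (1 : ZMod 2)
    rw [this]
    exact zero_lt_one
  obtain ⟨hper, hbd⟩ := main_bound a J (fun i hi => (hJi i hi).1) (fun i hi => (hJi i hi).2.1)
    (fun i hi j _ hij => (hJi i hi).2.2 j (Ne.symm hij)) D 1 M (gs a k) hMpos hDdvd
    (fun i hi => by
      rw [hM]
      apply Nat.Coprime.mul_right
      · apply Nat.Coprime.prod_right
        intro j hj
        refine (hJi i hi).2.2 j ?_
        rintro rfl
        exact (mem_filter.1 hj).2 (hJi j hi)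
      · apply Nat.Coprime.pow_right
        exact ((hJi i hi).1).coprime_two_right)
    (fun i _ => isCoprime_one_left) hdeg (by rw [← hprod, gs_prod a ha]; simp)
  set L := M * ∏ i ∈ J, a i with hL
  have hLpos : 0 < L := Nat.mul_pos hMpos (Finset.prod_pos fun j _ => ha j)
  have hodd : ∀ n, Odd (rp a k n) ↔ PowerSeries.coeff n (gs a k) = 1 := by
    intro n
    rw [gs, PowerSeries.coeff_mk, ZMod.natCast_eq_one_iff_odd]
  have hPper : ∀ n, Odd (rp a k (n + L)) ↔ Odd (rp a k n) := by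
    intro n; rw [hodd, hodd, hper]
  have ht := tendsto_count_periodic (fun n => Odd (rp a k n)) L hLpos hPper
  refine ⟨_, ht, ?_⟩
  -- the count
  have hcount : ∑ n ∈ range L, sg (PowerSeries.coeff n (gs a k)) =
      (L : ℤ) - 2 * (Nat.count (fun n => Odd (rp a k n)) L : ℕ) := by
    have h1 : ∀ n, sg (PowerSeries.coeff n (gs a k)) = 1 - 2 * (if Odd (rp a k n) then 1 else 0) := by
      intro n
      simp only [hodd n]
      generalize PowerSeries.coeff n (gs a k) = x
      revert x; decide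
    simp only [h1]
    rw [Finset.sum_sub_distrib, ← Finset.mul_sum, Finset.sum_boole, Nat.count_eq_card_filter_range]
    simp
  rw [hcount] at hbd
  have hLr : (0 : ℝ) < L := by exact_mod_cast hLpos
  have hbr : |(L : ℝ) - 2 * (Nat.count (fun n => Odd (rp a k n)) L : ℕ)| ≤
      M * ∏ i ∈ J, ((a i : ℝ) - 2) := by
    have := (Int.cast_le (R := ℝ)).2 hbd
    push_cast at this
    exact this
  have e1 : (Nat.count (fun n => Odd (rp a k n)) L : ℝ) / L - 1 / 2 =
      -(((L : ℝ) - 2 * (Nat.count (fun n => Odd (rp a k n)) L : ℕ)) / (2 * L)) := by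
    field_simp
    ring
  rw [e1, abs_neg, abs_div, abs_of_pos (by positivity : (0 : ℝ) < 2 * L)]
  have hprodr : (M : ℝ) * ∏ i ∈ J, ((a i : ℝ) - 2) = L * ∏ i ∈ J, (1 - 2 / (a i : ℝ)) := by
    rw [hL]
    push_cast
    rw [mul_assoc, ← Finset.prod_mul_distrib]
    congr 1
    apply Finset.prod_congr rfl
    intro i _
    have : (a i : ℝ) ≠ 0 := by exact_mod_cast (ha i).ne'
    field_simp
  have hnn : (0 : ℝ) ≤ ∏ i ∈ J, (1 - 2 / (a i : ℝ)) := by
    apply Finset.prod_nonneg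
    intro i hi
    have h3 := (hJi i hi).2.1
    have h4 : (2 : ℝ) ≤ a i := by exact_mod_cast h3
    have : (2 : ℝ) / a i ≤ 1 := by rw [div_le_one (by linarith)]; exact h4
    linarith
  calc |(L : ℝ) - 2 * (Nat.count (fun n => Odd (rp a k n)) L : ℕ)| / (2 * L)
      ≤ (L * ∏ i ∈ J, (1 - 2 / (a i : ℝ))) / (2 * L) := by
        apply div_le_div_of_nonneg_right _ (by positivity)
        rw [← hprodr]; exact hbr
    _ = (∏ i ∈ J, (1 - 2 / (a i : ℝ))) / 2 := by field_simp
    _ ≤ _ := by linarith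

open Classical in
theorem tendsto_half (a : ℕ → ℕ) (ha : ∀ i, 0 < a i)
    (hs : ¬ Summable (fun i : Iso a => (1 : ℝ) / a i)) :
    ∃ δ : ℕ → ℝ, (∀ k, 1 ≤ k → Tendsto (fun N : ℕ =>
      (({n : ℕ | n ≤ N ∧ Odd (rp a k n)}.ncard : ℕ) : ℝ) / N) atTop (𝓝 (δ k))) ∧
      Tendsto δ atTop (𝓝 (1 / 2)) := by
  choose! δ hδ1 hδ2 using density_bound a ha
  refine ⟨δ, hδ1, ?_⟩
  -- product tends to zero
  have hs' : ¬ Summable (Set.indicator (Iso a) (fun i : ℕ => (1 : ℝ) / a i)) := by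
    intro h; exact hs (summable_subtype_iff_indicator.2 h)
  have hdiv : Tendsto (fun k : ℕ => ∑ i ∈ range k, Set.indicator (Iso a) (fun i : ℕ => (1 : ℝ) / a i) i)
      atTop atTop := by
    rw [← not_summable_iff_tendsto_nat_atTop_of_nonneg]
    · exact hs'
    · intro i
      apply Set.indicator_nonneg
      intro i _
      positivity
  have hprod : ∀ k, ∏ i ∈ (range k).filter (· ∈ Iso a), (1 - 2 / (a i : ℝ)) ≤
      Real.exp (-(2 * ∑ i ∈ range k, Set.indicator (Iso a) (fun i : ℕ => (1 : ℝ) / a i) i)) := by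
    intro k
    have e : ∑ i ∈ range k, Set.indicator (Iso a) (fun i : ℕ => (1 : ℝ) / a i) i =
        ∑ i ∈ (range k).filter (· ∈ Iso a), (1 : ℝ) / a i := by
      rw [Finset.sum_filter]
      apply Finset.sum_congr rfl
      intro i _
      simp [Set.indicator_apply]
    rw [e, Finset.mul_sum, ← Finset.sum_neg_distrib, Real.exp_sum]
    apply Finset.prod_le_prod
    · intro i hi
      have h3 := (mem_filter.1 hi).2.2.1
      have h4 : (2 : ℝ) ≤ a i := by exact_mod_cast h3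
      have : (2 : ℝ) / a i ≤ 1 := by rw [div_le_one (by linarith)]; exact h4
      linarith
    · intro i _
      have := Real.add_one_le_exp (-(2 * (1 / (a i : ℝ))))
      have e2 : (2 : ℝ) / a i = 2 * (1 / (a i : ℝ)) := by ring
      rw [e2]
      linarith
  have hexp : Tendsto (fun k : ℕ => Real.exp (-(2 * ∑ i ∈ range k,
      Set.indicator (Iso a) (fun i : ℕ => (1 : ℝ) / a i) i))) atTop (𝓝 0) := by
    apply Real.tendsto_exp_neg_atTop_nhds_zero.comp
    exact hdiv.const_mul_atTop (by norm_num)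
  rw [tendsto_iff_norm_sub_tendsto_zero]
  refine squeeze_zero' (Eventually.of_forall fun _ => norm_nonneg _) ?_ hexp
  filter_upwards [eventually_ge_atTop 1] with k hk
  rw [Real.norm_eq_abs]
  exact (hδ2 k hk).trans (hprod k)

end Q250.RP
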