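import Mathlib

/-!
The product of `x - e(a/p)` over the nonzero quadratic residues `a` modulo `p`: multiplicative
relations.
-/

set_option autoImplicit false

namespace Q250.Tenth

open Finset

variable {p : ℕ} [hp : Fact p.Prime]

/-- `e(a/p)` -/
noncomputable def e (a : ZMod p) : ℂ := ZMod.stdAddChar a

theorem e_add (a b : ZMod p) : e (a + b) = e a * e b := AddChar.map_add_eq_mul _ _ _

theorem e_zero : e (0 : ZMod p) = 1 := AddChar.map_zero_eq_one _

theorem norm_e (a : ZMod p) : ‖e a‖ = 1 := by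
  unfold e
  rw [ZMod.stdAddChar_apply]
  exact Circle.norm_coe _

theorem e_ne_zero (a : ZMod p) : e a ≠ 0 := by
  intro h
  have := norm_e a
  rw [h] at this
  simp at this

theorem e_neg (a : ZMod p) : e (-a) = (e a)⁻¹ := by
  have h := e_add a (-a)
  rw [add_neg_cancel, e_zero] at h
  exact eq_inv_of_mul_eq_one_right h.symm

theorem conj_e (a : ZMod p) : starRingEnd ℂ (e a) = e (-a) := by
  rw [e_neg]
  exact (Complex.inv_eq_conj (norm_e a)).symm

theorem e_nsmul (n : ℕ) (a : ZMod p) : e ((n : ZMod p) * a) = e a ^ n := by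
  unfold e
  rw [← nsmul_eq_mul]
  exact AddChar.map_nsmul_eq_pow _ n a

theorem e_inj {a b : ZMod p} (h : e a = e b) : a = b := ZMod.injective_stdAddChar h

theorem e_pow_p (a : ZMod p) : e a ^ p = 1 := by
  rw [← e_nsmul]; simp [e_zero]

theorem prod_all (x : ℂ) : ∏ a : ZMod p, (x - e a) = x ^ p - 1 := by
  have hpos := hp.out.pos
  have h := Complex.isPrimitiveRoot_exp p hpos.ne'
  have h1 := h.pow_sub_pow_eq_prod_sub_mul x 1 hpos
  rw [one_pow] at h1
  rw [h1]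
  have himg : (Finset.univ : Finset (ZMod p)).image e = Polynomial.nthRootsFinset p (1 : ℂ) := by
    apply Finset.eq_of_subset_of_card_le
    · intro z hz
      obtain ⟨a, -, rfl⟩ := Finset.mem_image.1 hz
      rw [Polynomial.mem_nthRootsFinset hpos]
      exact e_pow_p a
    · rw [h.card_nthRootsFinset, Finset.card_image_of_injective _ (fun a b h => e_inj h),
        Finset.card_univ, ZMod.card]
  rw [← himg, Finset.prod_image (fun a _ b _ h => e_inj h)]
  simp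

/-- quadratic residues -/
def R (p : ℕ) [Fact p.Prime] : Finset (ZMod p) :=
  Finset.univ.filter (fun a => quadraticChar (ZMod p) a = 1)

/-- quadratic nonresidues -/
def N (p : ℕ) [Fact p.Prime] : Finset (ZMod p) :=
  Finset.univ.filter (fun a => quadraticChar (ZMod p) a = -1)

theorem mem_R {a : ZMod p} : a ∈ R p ↔ quadraticChar (ZMod p) a = 1 := by simp [R]
theorem mem_N {a : ZMod p} : a ∈ N p ↔ quadraticChar (ZMod p) a = -1 := by simp [N]

theorem ne_zero_of_mem_R {a : ZMod p} (h : a ∈ R p) : a ≠ 0 := by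
  rintro rfl
  rw [mem_R] at h
  simp at h

theorem prod_mul_R {M : Type*} [CommMonoid M] (u : ZMod p) (hu : quadraticChar (ZMod p) u = 1)
    (f : ZMod p → M) : ∏ a ∈ R p, f (u * a) = ∏ a ∈ R p, f a := by
  have hu0 : u ≠ 0 := by rintro rfl; simp at hu
  refine Finset.prod_bij (fun a _ => u * a) ?_ ?_ ?_ ?_
  · intro a ha; rw [mem_R] at ha ⊢; rw [map_mul, hu, ha, one_mul]
  · intro a _ b _ h; exact mul_left_cancel₀ hu0 h
  · intro b hb
    refine ⟨u⁻¹ * b, ?_, by rw [mul_inv_cancel_left₀ hu0]⟩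
    rw [mem_R] at hb ⊢
    have : quadraticChar (ZMod p) (u * (u⁻¹ * b)) = 1 := by rw [mul_inv_cancel_left₀ hu0, hb]
    rw [map_mul, hu, one_mul] at this
    exact this
  · intro a _; rfl

theorem prod_mul_N {M : Type*} [CommMonoid M] (u : ZMod p) (hu : quadraticChar (ZMod p) u = -1)
    (f : ZMod p → M) : ∏ a ∈ R p, f (u * a) = ∏ a ∈ N p, f a := by
  have hu0 : u ≠ 0 := by rintro rfl; simp at hu
  refine Finset.prod_bij (fun a _ => u * a) ?_ ?_ ?_ ?_
  · intro a ha; rw [mem_R] at ha; rw [mem_N, map_mul, hu, ha, mul_one]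
  · intro a _ b _ h; exact mul_left_cancel₀ hu0 h
  · intro b hb
    refine ⟨u⁻¹ * b, ?_, by rw [mul_inv_cancel_left₀ hu0]⟩
    rw [mem_N] at hb
    rw [mem_R]
    have : quadraticChar (ZMod p) (u * (u⁻¹ * b)) = -1 := by rw [mul_inv_cancel_left₀ hu0, hb]
    rw [map_mul, hu] at this
    linarith
  · intro a _; rfl

/-- the product over the residues -/
noncomputable def S (p : ℕ) [Fact p.Prime] (x : ℂ) : ℂ := ∏ a ∈ R p, (x - e a)
/-- the product over the nonresidues -/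
noncomputable def T (p : ℕ) [Fact p.Prime] (x : ℂ) : ℂ := ∏ a ∈ N p, (x - e a)

theorem S_mul_T (x : ℂ) : S p x * T p x * (x - 1) = x ^ p - 1 := by
  classical
  rw [← prod_all (p := p)]
  have h1 : (Finset.univ : Finset (ZMod p)) = (R p ∪ N p) ∪ {0} := by
    ext a
    simp only [Finset.mem_univ, Finset.mem_union, Finset.mem_singleton, true_iff, mem_R, mem_N]
    by_cases ha : a = 0
    · right; exact ha
    · left; exact quadraticChar_dichotomy ha
  have hd1 : Disjoint (R p) (N p) := by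
    rw [Finset.disjoint_left]
    intro a h1 h2
    rw [mem_R] at h1; rw [mem_N, h1] at h2
    norm_num at h2
  have hd2 : Disjoint (R p ∪ N p) ({0} : Finset (ZMod p)) := by
    rw [Finset.disjoint_singleton_right]
    intro h
    rcases Finset.mem_union.1 h with h | h
    · rw [mem_R] at h; simp at h
    · rw [mem_N] at h; simp at h
  rw [h1, Finset.prod_union hd2, Finset.prod_union hd1, Finset.prod_singleton, e_zero]
  rfl

theorem norm_S_neg (h2 : quadraticChar (ZMod p) 2 = -1) (x : ℂ) :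
    ‖S p x‖ * ‖S p (-x)‖ = ‖T p (x ^ 2)‖ := by
  rw [← norm_mul]
  unfold S T
  rw [← Finset.prod_mul_distrib, ← prod_mul_N 2 h2 (fun a => x ^ 2 - e a), norm_prod, norm_prod]
  apply Finset.prod_congr rfl
  intro a _
  have : e (2 * a) = e a ^ 2 := by
    have := e_nsmul 2 a
    push_cast at this
    exact this
  rw [this, ← norm_neg]
  congr 1
  ring

theorem norm_S_conj (h1 : quadraticChar (ZMod p) (-1) = 1) (x : ℂ) :
    ‖S p (starRingEnd ℂ x)‖ = ‖S p x‖ := by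
  rw [← Complex.norm_conj (S p x)]
  congr 1
  unfold S
  rw [map_prod, ← prod_mul_R (-1) h1 (fun a => starRingEnd ℂ x - e a)]
  apply Finset.prod_congr rfl
  intro a _
  rw [map_sub, conj_e, neg_one_mul]

/-- `∏_{j=1}^{4} |S(ω^j)| = 1` -/
theorem prod_four (h5 : quadraticChar (ZMod p) 5 = 1) {ω : ℂ} (hω : IsPrimitiveRoot ω 5) :
    ‖S p ω‖ * ‖S p (ω ^ 2)‖ * ‖S p (ω ^ 3)‖ * ‖S p (ω ^ 4)‖ = 1 := by
  have h0 : ∀ y : ℂ, (ω - y) * (ω ^ 2 - y) * (ω ^ 3 - y) * (ω ^ 4 - y) * (1 - y) = 1 - y ^ 5 := by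
    intro y
    have hs : ω ^ 4 + ω ^ 3 + ω ^ 2 + ω + 1 = 0 := by
      have h1 : ω ≠ 1 := hω.ne_one (by norm_num)
      have h2 : (ω - 1) * (ω ^ 4 + ω ^ 3 + ω ^ 2 + ω + 1) = 0 := by
        have := hω.pow_eq_one
        linear_combination this
      exact (mul_eq_zero.1 h2).resolve_left (sub_ne_zero.2 h1)
    have h5' := hω.pow_eq_one
    have e4 : ω ^ 4 = -(ω ^ 3 + ω ^ 2 + ω + 1) := by linear_combination hs
    have key : (ω - y) * (ω ^ 2 - y) * (ω ^ 3 - y) * (ω ^ 4 - y) =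
        y ^ 4 + y ^ 3 + y ^ 2 + y + 1 := by
      have a1 : (ω - y) * (ω ^ 4 - y) = 1 - (ω + ω ^ 4) * y + y ^ 2 := by
        linear_combination h5'
      have a2 : (ω ^ 2 - y) * (ω ^ 3 - y) = 1 - (ω ^ 2 + ω ^ 3) * y + y ^ 2 := by
        linear_combination h5'
      have a3 : (ω + ω ^ 4) * (ω ^ 2 + ω ^ 3) = -1 := by
        have : (ω + ω ^ 4) * (ω ^ 2 + ω ^ 3) = ω ^ 3 + ω ^ 4 + ω ^ 5 * ω + ω ^ 5 * ω ^ 2 := by ring
        rw [this, h5']
        linear_combination hs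
      have a4 : (ω + ω ^ 4) + (ω ^ 2 + ω ^ 3) = -1 := by linear_combination hs
      calc (ω - y) * (ω ^ 2 - y) * (ω ^ 3 - y) * (ω ^ 4 - y)
          = ((ω - y) * (ω ^ 4 - y)) * ((ω ^ 2 - y) * (ω ^ 3 - y)) := by ring
        _ = (1 - (ω + ω ^ 4) * y + y ^ 2) * (1 - (ω ^ 2 + ω ^ 3) * y + y ^ 2) := by rw [a1, a2]
        _ = (1 + y ^ 2) ^ 2 - ((ω + ω ^ 4) + (ω ^ 2 + ω ^ 3)) * (y * (1 + y ^ 2)) +
            ((ω + ω ^ 4) * (ω ^ 2 + ω ^ 3)) * y ^ 2 := by ring
        _ = _ := by rw [a3, a4]; ring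
    rw [key]; ring
  have h1 : ‖S p ω‖ * ‖S p (ω ^ 2)‖ * ‖S p (ω ^ 3)‖ * ‖S p (ω ^ 4)‖ * ‖∏ a ∈ R p, (1 - e a)‖ =
      ‖∏ a ∈ R p, (1 - e a)‖ := by
    have e5 : ∏ a ∈ R p, (1 - e a) = ∏ a ∈ R p, (1 - e a ^ 5) := by
      rw [← prod_mul_R 5 h5 (fun a => 1 - e a)]
      apply Finset.prod_congr rfl
      intro a _
      have := e_nsmul 5 a
      push_cast at this
      rw [this]
    conv_rhs => rw [e5]
    unfold S
    rw [← norm_mul, ← norm_mul, ← norm_mul, ← norm_mul, ← Finset.prod_mul_distrib,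
      ← Finset.prod_mul_distrib, ← Finset.prod_mul_distrib, ← Finset.prod_mul_distrib]
    congr 1
    exact Finset.prod_congr rfl (fun a _ => h0 (e a))
  have h2 : ‖∏ a ∈ R p, (1 - e a)‖ ≠ 0 := by
    rw [norm_ne_zero_iff, Finset.prod_ne_zero_iff]
    intro a ha h
    have : e a = e (0 : ZMod p) := by rw [e_zero]; linear_combination -h
    exact ne_zero_of_mem_R ha (e_inj this)
  exact mul_right_cancel₀ h2 (by rw [h1, one_mul])

/-- `|S(-ω)| = 1` for a primitive fifth root of unity `ω`. -/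
theorem norm_S_neg_fifth (h1 : quadraticChar (ZMod p) (-1) = 1)
    (h2 : quadraticChar (ZMod p) 2 = -1) (h5 : quadraticChar (ZMod p) 5 = 1)
    (hp5 : p % 5 = 1 ∨ p % 5 = 4) {ω : ℂ} (hω : IsPrimitiveRoot ω 5) : ‖S p (-ω)‖ = 1 := by
  have hnorm : ‖ω‖ = 1 := hω.norm'_eq_one (by norm_num)
  have hconj : starRingEnd ℂ ω = ω ^ 4 := by
    rw [← Complex.inv_eq_conj hnorm]
    exact inv_eq_of_mul_eq_one_right (by rw [← pow_succ']; exact hω.pow_eq_one)
  have hA : ‖S p (ω ^ 4)‖ = ‖S p ω‖ := by rw [← hconj, norm_S_conj h1]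
  have hB : ‖S p (ω ^ 3)‖ = ‖S p (ω ^ 2)‖ := by
    have : ω ^ 3 = starRingEnd ℂ (ω ^ 2) := by
      rw [map_pow, hconj]
      calc ω ^ 3 = ω ^ 5 * ω ^ 3 := by rw [hω.pow_eq_one, one_mul]
        _ = (ω ^ 4) ^ 2 := by ring
    rw [this, norm_S_conj h1]
  have hP := prod_four h5 hω
  rw [hA, hB] at hP
  have hP' : (‖S p ω‖ * ‖S p (ω ^ 2)‖) ^ 2 = 1 := by linear_combination hP
  have hP1 : ‖S p ω‖ * ‖S p (ω ^ 2)‖ = 1 := by
    have hnn : 0 ≤ ‖S p ω‖ * ‖S p (ω ^ 2)‖ := by positivity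
    nlinarith [sq_nonneg (‖S p ω‖ * ‖S p (ω ^ 2)‖ - 1)]
  have hST := S_mul_T (p := p) (ω ^ 2)
  have hx1 : (ω ^ 2) ≠ 1 := by
    intro h
    have := hω.dvd_of_pow_eq_one 2 h
    omega
  have hnx : ‖ω ^ 2 - 1‖ ≠ 0 := by rw [norm_ne_zero_iff]; exact sub_ne_zero.2 hx1
  have hxp : ‖(ω ^ 2) ^ p - 1‖ = ‖ω ^ 2 - 1‖ := by
    have h5' := hω.pow_eq_one
    have hd := Nat.div_add_mod p 5
    rcases hp5 with h | h
    · have : (ω ^ 2) ^ p = ω ^ 2 := by
        rw [← hd, h, ← pow_mul, show 2 * (5 * (p / 5) + 1) = 5 * (2 * (p / 5)) + 2 by ring,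
          pow_add, pow_mul, h5', one_pow, one_mul]
      rw [this]
    · have : (ω ^ 2) ^ p = starRingEnd ℂ (ω ^ 2) := by
        rw [map_pow, hconj, ← hd, h, ← pow_mul,
          show 2 * (5 * (p / 5) + 4) = 5 * (2 * (p / 5)) + 8 by ring,
          pow_add, pow_mul, h5', one_pow, one_mul, ← pow_mul]
      rw [this, ← Complex.norm_conj (ω ^ 2 - 1), map_sub, map_one]
  have hST' : ‖S p (ω ^ 2)‖ * ‖T p (ω ^ 2)‖ = 1 := by
    have := congrArg norm hST
    rw [norm_mul, norm_mul, hxp] at this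
    exact mul_right_cancel₀ hnx (by rw [this, one_mul])
  have hneg := norm_S_neg h2 ω
  -- `|S(ω)| |S(-ω)| = |T(ω²)|`, `|S(ω²)| |T(ω²)| = 1`, `|S(ω)| |S(ω²)| = 1`
  have hS0 : ‖S p ω‖ ≠ 0 := by
    intro h; rw [h, zero_mul] at hP1; norm_num at hP1
  have hS1 : ‖S p (ω ^ 2)‖ ≠ 0 := by
    intro h; rw [h, mul_zero] at hP1; norm_num at hP1
  have : ‖S p (-ω)‖ * (‖S p ω‖ * ‖S p (ω ^ 2)‖) = ‖S p (ω ^ 2)‖ * ‖T p (ω ^ 2)‖ := by
    rw [← hneg]; ring
  rw [hP1, hST', mul_one] at this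
  exact this

end Q250.Tenth
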