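import Pool.Agent.Q250.Tenth1

/-!
Factorization of `S(ζ)` for `p ≡ 1 (mod 4)` and determination of signs.
-/

set_option autoImplicit false

namespace Q250.Tenth

open Finset

variable {p : ℕ} [hp : Fact p.Prime]

theorem natAbs_sq_cast (z : ℤ) : ((z.natAbs : ℕ) : ZMod p) ^ 2 = (z : ZMod p) ^ 2 := by
  rcases Int.natAbs_eq z with h | h
  · conv_rhs => rw [h, Int.cast_natCast]
  · conv_rhs => rw [h, Int.cast_neg, Int.cast_natCast, neg_sq]

/-- `S_p(x)` as in the problem equals the product over the residues. -/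
theorem prod_sq_eq (hodd : p % 2 = 1) (x : ℂ) :
    ∏ k ∈ Finset.Icc 1 ((p - 1) / 2), (x - Complex.exp (2 * Real.pi * Complex.I * (k : ℂ) ^ 2 / p)) =
      S p x := by
  have hp2 := hp.out.two_le
  unfold S
  refine Finset.prod_bij (fun k _ => ((k : ZMod p)) ^ 2) ?_ ?_ ?_ ?_
  · intro k hk
    rw [Finset.mem_Icc] at hk
    rw [mem_R, map_pow]
    have hk0 : (k : ZMod p) ≠ 0 := by
      rw [Ne, ZMod.natCast_eq_zero_iff]
      intro h
      have := Nat.le_of_dvd (by omega) h
      omega
    exact quadraticChar_sq_one hk0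
  · intro k hk l hl h
    rw [Finset.mem_Icc] at hk hl
    rcases sq_eq_sq_iff_eq_or_eq_neg.1 h with h | h
    · have := (ZMod.natCast_eq_natCast_iff' k l p).1 h
      rwa [Nat.mod_eq_of_lt (by omega), Nat.mod_eq_of_lt (by omega)] at this
    · exfalso
      have h' : ((k + l : ℕ) : ZMod p) = 0 := by push_cast; rw [h]; ring
      rw [ZMod.natCast_eq_zero_iff] at h'
      have := Nat.le_of_dvd (by omega) h'
      omega
  · intro a ha
    have ha0 := ne_zero_of_mem_R ha
    rw [mem_R, quadraticChar_one_iff_isSquare ha0] at ha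
    obtain ⟨b, hb⟩ := ha
    have hb0 : b ≠ 0 := by rintro rfl; apply ha0; rw [hb]; ring
    refine ⟨b.valMinAbs.natAbs, ?_, ?_⟩
    · rw [Finset.mem_Icc]
      constructor
      · have : b.valMinAbs ≠ 0 := by
          intro h; exact hb0 ((ZMod.valMinAbs_eq_zero b).1 h)
        omega
      · have := ZMod.natAbs_valMinAbs_le b
        omega
    · rw [natAbs_sq_cast, ZMod.coe_valMinAbs, hb, sq]
  · intro k hk
    congr 1
    have := ZMod.stdAddChar_coe (N := p) ((k : ℤ) ^ 2)
    unfold e
    push_cast at this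
    rw [this]

/-- residues with small representatives -/
def Rp (p : ℕ) [Fact p.Prime] : Finset (ZMod p) := (R p).filter (fun a => 2 * a.val < p)

theorem neg_val {a : ZMod p} (ha : a ≠ 0) : (-a).val = p - a.val := by
  rw [ZMod.neg_val, if_neg ha]

/-- `Q(c) = ∏ (c - 2 cos(2πa/p))` -/
noncomputable def Q (p : ℕ) [Fact p.Prime] (c : ℝ) : ℝ :=
  ∏ a ∈ Rp p, (c - 2 * Real.cos (2 * Real.pi * (a.val : ℝ) / p))

theorem e_add_e_neg (a : ZMod p) :
    e a + e (-a) = ((2 * Real.cos (2 * Real.pi * (a.val : ℝ) / p) : ℝ) : ℂ) := by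
  have h1 : e a = Complex.exp (((2 * Real.pi * (a.val : ℝ) / p : ℝ) : ℂ) * Complex.I) := by
    unfold e
    rw [ZMod.stdAddChar_apply, ZMod.toCircle_apply]
    congr 1
    push_cast
    ring
  rw [← conj_e, Complex.add_conj, h1, Complex.exp_ofReal_mul_I_re]

theorem S_factor (hodd : p % 2 = 1) (h1 : quadraticChar (ZMod p) (-1) = 1) {x : ℂ} (hx : x ≠ 0)
    {c : ℝ} (hc : x + x⁻¹ = (c : ℂ)) :
    S p x = x ^ (Rp p).card * (Q p c : ℂ) := by
  classical
  have hp2 := hp.out.two_le
  have hR : R p = Rp p ∪ (R p).filter (fun a => ¬ 2 * a.val < p) :=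
    (Finset.filter_union_filter_not_eq _ _).symm
  have hd : Disjoint (Rp p) ((R p).filter (fun a => ¬ 2 * a.val < p)) :=
    Finset.disjoint_filter_filter_not _ _ _
  have hbij : ∏ a ∈ (R p).filter (fun a => ¬ 2 * a.val < p), (x - e a) =
      ∏ a ∈ Rp p, (x - e (-a)) := by
    symm
    refine Finset.prod_bij (fun a _ => -a) ?_ ?_ ?_ ?_
    · intro a ha
      rw [Rp, Finset.mem_filter] at ha
      have ha0 := ne_zero_of_mem_R ha.1
      rw [Finset.mem_filter, mem_R, neg_eq_neg_one_mul, map_mul, h1, one_mul, ← neg_eq_neg_one_mul,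
        neg_val ha0]
      exact ⟨mem_R.1 ha.1, by omega⟩
    · intro a _ b _ h; exact neg_injective h
    · intro b hb
      rw [Finset.mem_filter] at hb
      have hb0 := ne_zero_of_mem_R hb.1
      refine ⟨-b, ?_, neg_neg b⟩
      have hlt := ZMod.val_lt b
      rw [Rp, Finset.mem_filter, mem_R, neg_eq_neg_one_mul, map_mul, h1, one_mul,
        ← neg_eq_neg_one_mul, neg_val hb0]
      exact ⟨mem_R.1 hb.1, by omega⟩
    · intro a _; rfl
  unfold S
  rw [hR, Finset.prod_union hd, hbij, ← Finset.prod_mul_distrib]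
  unfold Q
  rw [Complex.ofReal_prod, ← Finset.prod_const, ← Finset.prod_mul_distrib]
  apply Finset.prod_congr rfl
  intro a _
  have h3 := e_add_e_neg a
  have h4 : e a * e (-a) = 1 := by rw [e_neg, mul_inv_cancel₀ (e_ne_zero a)]
  rw [Complex.ofReal_sub, ← h3, ← hc]
  have h5 : x * x⁻¹ = 1 := mul_inv_cancel₀ hx
  linear_combination h4 - h5

theorem card_Rp (hp4 : p % 4 = 1) (h1 : quadraticChar (ZMod p) (-1) = 1) :
    (Rp p).card = (p - 1) / 4 := by
  classical
  have hp2 := hp.out.two_le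
  -- `|R| = (p-1)/2`
  have hcR : (R p).card = (p - 1) / 2 := by
    have h := prod_sq_eq (p := p) (by omega) 0
    have e1 : (Finset.Icc 1 ((p - 1) / 2)).card = (R p).card := by
      refine Finset.card_bij (fun k _ => ((k : ZMod p)) ^ 2) ?_ ?_ ?_
      · intro k hk
        rw [Finset.mem_Icc] at hk
        rw [mem_R, map_pow]
        have hk0 : (k : ZMod p) ≠ 0 := by
          rw [Ne, ZMod.natCast_eq_zero_iff]
          intro h
          have := Nat.le_of_dvd (by omega) h
          omega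
        exact quadraticChar_sq_one hk0
      · intro k hk l hl h
        rw [Finset.mem_Icc] at hk hl
        rcases sq_eq_sq_iff_eq_or_eq_neg.1 h with h | h
        · have := (ZMod.natCast_eq_natCast_iff' k l p).1 h
          rwa [Nat.mod_eq_of_lt (by omega), Nat.mod_eq_of_lt (by omega)] at this
        · exfalso
          have h' : ((k + l : ℕ) : ZMod p) = 0 := by push_cast; rw [h]; ring
          rw [ZMod.natCast_eq_zero_iff] at h'
          have := Nat.le_of_dvd (by omega) h'
          omega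
      · intro a ha
        have ha0 := ne_zero_of_mem_R ha
        rw [mem_R, quadraticChar_one_iff_isSquare ha0] at ha
        obtain ⟨b, hb⟩ := ha
        have hb0 : b ≠ 0 := by rintro rfl; apply ha0; rw [hb]; ring
        refine ⟨b.valMinAbs.natAbs, ?_, ?_⟩
        · rw [Finset.mem_Icc]
          constructor
          · have : b.valMinAbs ≠ 0 := by
              intro h; exact hb0 ((ZMod.valMinAbs_eq_zero b).1 h)
            omega
          · have := ZMod.natAbs_valMinAbs_le b
            omega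
        · rw [natAbs_sq_cast, ZMod.coe_valMinAbs, hb, sq]
    rw [← e1, Nat.card_Icc]; omega
  have h2 := Finset.card_filter_add_card_filter_not (s := R p) (fun a => 2 * a.val < p)
  have h3 : ((R p).filter (fun a => ¬ 2 * a.val < p)).card = (Rp p).card := by
    symm
    refine Finset.card_bij (fun a _ => -a) ?_ ?_ ?_
    · intro a ha
      rw [Rp, Finset.mem_filter] at ha
      have ha0 := ne_zero_of_mem_R ha.1
      rw [Finset.mem_filter, mem_R, neg_eq_neg_one_mul, map_mul, h1, one_mul, ← neg_eq_neg_one_mul,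
        neg_val ha0]
      exact ⟨mem_R.1 ha.1, by omega⟩
    · intro a _ b _ h; exact neg_injective h
    · intro b hb
      rw [Finset.mem_filter] at hb
      have hb0 := ne_zero_of_mem_R hb.1
      refine ⟨-b, ?_, neg_neg b⟩
      have hlt := ZMod.val_lt b
      rw [Rp, Finset.mem_filter, mem_R, neg_eq_neg_one_mul, map_mul, h1, one_mul,
        ← neg_eq_neg_one_mul, neg_val hb0]
      exact ⟨mem_R.1 hb.1, by omega⟩
  have h4 : (Rp p).card = ((R p).filter (fun a => 2 * a.val < p)).card := rfl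
  omega

/-- the number of residues below `p/10` -/
def cnt (p : ℕ) [Fact p.Prime] : ℕ := ((R p).filter (fun a => 10 * a.val < p)).card

/-- sign of `Q(2 cos (π/5))` -/
theorem Q_sign (hp10 : ¬ 2 ∣ p) (hQ : |Q p (2 * Real.cos (Real.pi / 5))| = 1) :
    Q p (2 * Real.cos (Real.pi / 5)) = (-1) ^ cnt p := by
  classical
  have hpi := Real.pi_pos
  have hp0 : (0 : ℝ) < p := by exact_mod_cast hp.out.pos
  have key : ∀ a ∈ Rp p, (2 * Real.cos (Real.pi / 5)) - 2 * Real.cos (2 * Real.pi * (a.val : ℝ) / p) =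
      (if 10 * a.val < p then (-1 : ℝ) else 1) *
        |(2 * Real.cos (Real.pi / 5)) - 2 * Real.cos (2 * Real.pi * (a.val : ℝ) / p)| := by
    intro a ha
    rw [Rp, Finset.mem_filter] at ha
    have h2 : (2 * (a.val : ℝ)) ≤ p := by exact_mod_cast ha.2.le
    have hnn : (0 : ℝ) ≤ a.val := Nat.cast_nonneg _
    have hup : 2 * Real.pi * (a.val : ℝ) / p ≤ Real.pi := by
      rw [div_le_iff₀ hp0]; nlinarith
    have hlo : 0 ≤ 2 * Real.pi * (a.val : ℝ) / p := by positivity
    split_ifs with h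
    · have h10 : (10 * (a.val : ℝ)) ≤ p := by exact_mod_cast h.le
      have : 2 * Real.pi * (a.val : ℝ) / p ≤ Real.pi / 5 := by
        rw [div_le_iff₀ hp0]; nlinarith
      have := Real.cos_le_cos_of_nonneg_of_le_pi hlo (by linarith) this
      rw [abs_of_nonpos (by linarith)]; ring
    · push Not at h
      have h10 : (p : ℝ) ≤ 10 * (a.val : ℝ) := by exact_mod_cast h
      have : Real.pi / 5 ≤ 2 * Real.pi * (a.val : ℝ) / p := by
        rw [le_div_iff₀ hp0]; nlinarith
      have := Real.cos_le_cos_of_nonneg_of_le_pi (by positivity) hup this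
      rw [abs_of_nonneg (by linarith)]; ring
  have h1 : Q p (2 * Real.cos (Real.pi / 5)) =
      (∏ a ∈ Rp p, (if 10 * a.val < p then (-1 : ℝ) else 1)) * |Q p (2 * Real.cos (Real.pi / 5))| := by
    conv_lhs => unfold Q
    rw [Finset.prod_congr rfl key, Finset.prod_mul_distrib]
    congr 1
    unfold Q
    rw [Finset.abs_prod]
  rw [h1, hQ, mul_one, Finset.prod_ite, Finset.prod_const, Finset.prod_const_one, mul_one]
  congr 1
  unfold cnt Rp
  rw [Finset.filter_filter]
  congr 1
  apply Finset.filter_congr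
  intro a _
  constructor
  · rintro ⟨-, h⟩; exact h
  · intro h; exact ⟨by omega, h⟩

/-- `2 / √5` is not an algebraic integer. -/
theorem not_integral : ¬ IsIntegral ℤ ((2 / Real.sqrt 5 : ℝ) : ℂ) := by
  intro h
  have h2 := h.pow 2
  have e1 : (((2 / Real.sqrt 5 : ℝ) : ℂ)) ^ 2 = algebraMap ℚ ℂ (4 / 5) := by
    rw [← Complex.ofReal_pow, div_pow, Real.sq_sqrt (by norm_num)]
    norm_num
  rw [e1] at h2
  have h3 : IsIntegral ℤ (4 / 5 : ℚ) := by
    exact (isIntegral_algebraMap_iff (algebraMap ℚ ℂ).injective).1 h2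
  obtain ⟨z, hz⟩ := IsIntegrallyClosed.isIntegral_iff.1 h3
  have h4 : (5 * z : ℚ) = 4 := by
    have : (z : ℚ) = 4 / 5 := by exact_mod_cast hz
    rw [this]; norm_num
  have h5 : 5 * z = 4 := by exact_mod_cast h4
  omega

theorem integral_e (a : ZMod p) : IsIntegral ℤ (e a) := by
  refine ⟨Polynomial.X ^ p - 1, ?_, ?_⟩
  · exact Polynomial.monic_X_pow_sub_C 1 hp.out.ne_zero
  · simp [e_pow_p]

/-- `Q(c) - Q(c')` is divisible by `c - c'` in the ring of algebraic integers -/
theorem Q_sub (c c' : ℝ) (hc : IsIntegral ℤ (c : ℂ)) (hc' : IsIntegral ℤ (c' : ℂ)) :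
    ∃ z : ℂ, IsIntegral ℤ z ∧ ((Q p c : ℝ) : ℂ) - ((Q p c' : ℝ) : ℂ) = ((c : ℂ) - c') * z := by
  let O := integralClosure ℤ ℂ
  let t : ZMod p → O := fun a => ⟨e a + e (-a), (integral_e a).add (integral_e (-a))⟩
  let P : Polynomial O := ∏ a ∈ Rp p, (Polynomial.X - Polynomial.C (t a))
  have hev : ∀ (c : ℝ) (hc : IsIntegral ℤ (c : ℂ)),
      ((P.eval (⟨(c : ℂ), hc⟩ : O) : O) : ℂ) = ((Q p c : ℝ) : ℂ) := by
    intro c hc
    show ((P.eval (⟨(c : ℂ), hc⟩ : O) : O) : ℂ) = _
    rw [Polynomial.eval_prod]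
    unfold Q
    rw [Complex.ofReal_prod]
    have : ∀ s : Finset (ZMod p), (((∏ a ∈ s, Polynomial.eval (⟨(c : ℂ), hc⟩ : O)
        (Polynomial.X - Polynomial.C (t a)) : O)) : ℂ) =
        ∏ a ∈ s, (((c - 2 * Real.cos (2 * Real.pi * (a.val : ℝ) / p) : ℝ)) : ℂ) := by
      intro s
      induction s using Finset.cons_induction with
      | empty => simp
      | cons a s ha ih =>
        rw [Finset.prod_cons, Finset.prod_cons, ← ih]
        have : (((Polynomial.eval (⟨(c : ℂ), hc⟩ : O) (Polynomial.X - Polynomial.C (t a)) : O)) : ℂ) =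
            (((c - 2 * Real.cos (2 * Real.pi * (a.val : ℝ) / p) : ℝ)) : ℂ) := by
          rw [Polynomial.eval_sub, Polynomial.eval_X, Polynomial.eval_C]
          show (c : ℂ) - (e a + e (-a)) = _
          rw [e_add_e_neg]
          push_cast
          ring
        rw [← this]
        rfl
    exact this _
  obtain ⟨z, hz⟩ := Polynomial.sub_dvd_eval_sub (⟨(c : ℂ), hc⟩ : O) (⟨(c' : ℂ), hc'⟩ : O) P
  refine ⟨z, z.2, ?_⟩
  rw [← hev c hc, ← hev c' hc']
  have := congrArg (fun w : O => (w : ℂ)) hz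
  exact this

end Q250.Tenth
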