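import Mathlib

/-!
Positive ternary forms of determinant `3` which are anisotropic modulo `3` (up to the radical) are
equivalent to `x² + y² + 3 z²`.
-/

set_option autoImplicit false

namespace Q250.Tern3

/-- value of the form with Gram matrix `[[a,b,c],[b,d,e],[c,e,f]]` -/
def val (a b c d e f u v w : ℤ) : ℤ :=
  a * u ^ 2 + 2 * b * u * v + 2 * c * u * w + d * v ^ 2 + 2 * e * v * w + f * w ^ 2

/-- isotropic vectors modulo `3` are in the radical modulo `3` -/
def Aniso (a b c d e f : ℤ) : Prop :=
  ∀ u v w : ℤ, 3 ∣ val a b c d e f u v w →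
    3 ∣ a * u + b * v + c * w ∧ 3 ∣ b * u + d * v + e * w ∧ 3 ∣ c * u + e * v + f * w

structure Good (a b c d e f : ℤ) : Prop where
  ha : 0 < a
  hD : 0 < a * d - b ^ 2
  hdet : a * d * f + 2 * b * c * e - a * e ^ 2 - b ^ 2 * f - c ^ 2 * d = 3
  hP : Aniso a b c d e f

variable {a b c d e f : ℤ}

theorem val_red12 (t u v w : ℤ) :
    val a b c d e f u v w =
      val a (b - t * a) c (d - 2 * t * b + t ^ 2 * a) (e - t * c) f (u + t * v) v w := by
  unfold val; ring

theorem val_red13 (t u v w : ℤ) :
    val a b c d e f u v w =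
      val a b (c - t * a) d (e - t * b) (f - 2 * t * c + t ^ 2 * a) (u + t * w) v w := by
  unfold val; ring

theorem val_red23 (t u v w : ℤ) :
    val a b c d e f u v w =
      val a b (c - t * b) d (e - t * d) (f - 2 * t * e + t ^ 2 * d) u (v + t * w) w := by
  unfold val; ring

theorem val_swap12 (u v w : ℤ) : val a b c d e f u v w = val d b e a c f v u w := by
  unfold val; ring

theorem val_swap23 (u v w : ℤ) : val a b c d e f u v w = val a c b f e d u w v := by
  unfold val; ring

theorem good_red12 (h : Good a b c d e f) (t : ℤ) :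
    Good a (b - t * a) c (d - 2 * t * b + t ^ 2 * a) (e - t * c) f := by
  refine ⟨h.ha, ?_, ?_, ?_⟩
  · have := h.hD; nlinarith
  · have := h.hdet; linear_combination this
  · intro u v w hd
    have e1 := val_red12 (a := a) (b := b) (c := c) (d := d) (e := e) (f := f) t (u - t * v) v w
    rw [show u - t * v + t * v = u by ring] at e1
    rw [← e1] at hd
    obtain ⟨h1, h2, h3⟩ := h.hP _ _ _ hd
    refine ⟨?_, ?_, ?_⟩
    · have : a * u + (b - t * a) * v + c * w = a * (u - t * v) + b * v + c * w := by ring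
      rw [this]; exact h1
    · have : (b - t * a) * u + (d - 2 * t * b + t ^ 2 * a) * v + (e - t * c) * w =
          (b * (u - t * v) + d * v + e * w) - t * (a * (u - t * v) + b * v + c * w) := by ring
      rw [this]; exact dvd_sub h2 (h1.mul_left _)
    · have : c * u + (e - t * c) * v + f * w = c * (u - t * v) + e * v + f * w := by ring
      rw [this]; exact h3

theorem good_red13 (h : Good a b c d e f) (t : ℤ) :
    Good a b (c - t * a) d (e - t * b) (f - 2 * t * c + t ^ 2 * a) := by
  refine ⟨h.ha, h.hD, ?_, ?_⟩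
  · have := h.hdet; linear_combination this
  · intro u v w hd
    have e1 := val_red13 (a := a) (b := b) (c := c) (d := d) (e := e) (f := f) t (u - t * w) v w
    rw [show u - t * w + t * w = u by ring] at e1
    rw [← e1] at hd
    obtain ⟨h1, h2, h3⟩ := h.hP _ _ _ hd
    refine ⟨?_, ?_, ?_⟩
    · have : a * u + b * v + (c - t * a) * w = a * (u - t * w) + b * v + c * w := by ring
      rw [this]; exact h1
    · have : b * u + d * v + (e - t * b) * w = b * (u - t * w) + d * v + e * w := by ring
      rw [this]; exact h2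
    · have : (c - t * a) * u + (e - t * b) * v + (f - 2 * t * c + t ^ 2 * a) * w =
          (c * (u - t * w) + e * v + f * w) - t * (a * (u - t * w) + b * v + c * w) := by ring
      rw [this]; exact dvd_sub h3 (h1.mul_left _)

theorem good_red23 (h : Good a b c d e f) (t : ℤ) :
    Good a b (c - t * b) d (e - t * d) (f - 2 * t * e + t ^ 2 * d) := by
  refine ⟨h.ha, h.hD, ?_, ?_⟩
  · have := h.hdet; linear_combination this
  · intro u v w hd
    have e1 := val_red23 (a := a) (b := b) (c := c) (d := d) (e := e) (f := f) t u (v - t * w) w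
    rw [show v - t * w + t * w = v by ring] at e1
    rw [← e1] at hd
    obtain ⟨h1, h2, h3⟩ := h.hP _ _ _ hd
    refine ⟨?_, ?_, ?_⟩
    · have : a * u + b * v + (c - t * b) * w = a * u + b * (v - t * w) + c * w := by ring
      rw [this]; exact h1
    · have : b * u + d * v + (e - t * d) * w = b * u + d * (v - t * w) + e * w := by ring
      rw [this]; exact h2
    · have : (c - t * b) * u + (e - t * d) * v + (f - 2 * t * e + t ^ 2 * d) * w =
          (c * u + e * (v - t * w) + f * w) - t * (b * u + d * (v - t * w) + e * w) := by ring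
      rw [this]; exact dvd_sub h3 (h2.mul_left _)

theorem d_pos (h : Good a b c d e f) : 0 < d := by
  have h1 := h.ha
  have h2 := h.hD
  by_contra hc
  push Not at hc
  nlinarith [sq_nonneg b]

theorem schur : (a * d - b ^ 2) * (a * f - c ^ 2) = (e * a - b * c) ^ 2 +
    a * (a * d * f + 2 * b * c * e - a * e ^ 2 - b ^ 2 * f - c ^ 2 * d) := by ring

theorem D13_pos (h : Good a b c d e f) : 0 < a * f - c ^ 2 := by
  have h1 := h.ha
  have h2 := h.hD
  have h3 := schur (a := a) (b := b) (c := c) (d := d) (e := e) (f := f)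
  rw [h.hdet] at h3
  by_contra hc
  push Not at hc
  nlinarith [sq_nonneg (e * a - b * c)]

theorem good_swap12 (h : Good a b c d e f) : Good d b e a c f := by
  refine ⟨d_pos h, ?_, ?_, ?_⟩
  · have := h.hD; linarith
  · have := h.hdet; linear_combination this
  · intro u v w hd
    rw [← val_swap12] at hd
    obtain ⟨h1, h2, h3⟩ := h.hP _ _ _ hd
    exact ⟨by rw [show d * u + b * v + e * w = b * v + d * u + e * w by ring]; exact h2,
      by rw [show b * u + a * v + c * w = a * v + b * u + c * w by ring]; exact h1,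
      by rw [show e * u + c * v + f * w = c * v + e * u + f * w by ring]; exact h3⟩

theorem good_swap23 (h : Good a b c d e f) : Good a c b f e d := by
  refine ⟨h.ha, D13_pos h, ?_, ?_⟩
  · have := h.hdet; linear_combination this
  · intro u v w hd
    rw [← val_swap23] at hd
    obtain ⟨h1, h2, h3⟩ := h.hP _ _ _ hd
    exact ⟨by rw [show a * u + c * v + b * w = a * u + b * w + c * v by ring]; exact h1,
      by rw [show c * u + f * v + e * w = c * u + e * w + f * v by ring]; exact h3,
      by rw [show b * u + e * v + d * w = b * u + d * w + e * v by ring]; exact h2⟩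

theorem exists_rnd (u v : ℤ) (hv : 0 < v) : ∃ t, |2 * (u - t * v)| ≤ v := by
  refine ⟨(2 * u + v) / (2 * v), ?_⟩
  have h1 := Int.mul_ediv_add_emod (2 * u + v) (2 * v)
  have h2 := Int.emod_nonneg (2 * u + v) (show (2 * v : ℤ) ≠ 0 by omega)
  have h3 := Int.emod_lt_of_pos (2 * u + v) (show (0 : ℤ) < 2 * v by omega)
  rw [abs_le]
  set q := (2 * u + v) / (2 * v)
  set r := (2 * u + v) % (2 * v)
  constructor <;> nlinarith

theorem sq_of_abs {u v : ℤ} (h : |2 * u| ≤ v) : 4 * u ^ 2 ≤ v ^ 2 := by
  have h0 := abs_nonneg (2 * u)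
  have : |2 * u| ^ 2 ≤ v ^ 2 := pow_le_pow_left₀ h0 h 2
  rw [sq_abs] at this
  linarith [this, mul_pow 2 u 2]

/-- classification of the reduced forms -/
theorem reduced (h : Good a b c d e f) (hb : |2 * b| ≤ a) (hc : |2 * c| ≤ a)
    (hK : |2 * (e * a - b * c)| ≤ a * d - b ^ 2) (h1 : 3 * a ≤ 4 * d)
    (h2 : 3 * (a * d - b ^ 2) ≤ 4 * (a * f - c ^ 2)) :
    a = 1 ∧ b = 0 ∧ c = 0 ∧ d = 1 ∧ e = 0 ∧ f = 3 := by
  have ha := h.ha
  have hD := h.hD
  have hsch := schur (a := a) (b := b) (c := c) (d := d) (e := e) (f := f)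
  rw [h.hdet] at hsch
  have hP := h.hP
  have hb2 := sq_of_abs hb
  have hK2 := sq_of_abs hK
  obtain ⟨D, hDdef⟩ : ∃ D, D = a * d - b ^ 2 := ⟨_, rfl⟩
  obtain ⟨k, hk⟩ : ∃ k, k = e * a - b * c := ⟨_, rfl⟩
  obtain ⟨g, hg⟩ : ∃ g, g = a * f - c ^ 2 := ⟨_, rfl⟩
  rw [← hDdef] at hD hsch hK hK2 h2
  rw [← hk] at hsch hK hK2
  rw [← hg] at hsch h2
  have i1 : a ^ 2 ≤ 2 * D := by nlinarith
  have i2 : D ^ 2 ≤ 6 * a := by nlinarith
  have i3 : a ≤ 2 := by
    by_contra hcon
    push Not at hcon
    have : 3 * a ≤ a ^ 2 := by nlinarith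
    have h5 : 9 ≤ 2 * D := by nlinarith
    have h6 : 5 ≤ D := by omega
    have h7 : a ^ 4 ≤ 4 * D ^ 2 := by nlinarith [sq_nonneg a]
    nlinarith [mul_pos ha ha]
  have i4 : D ≤ 3 := by nlinarith
  rw [abs_le] at hb hc hK
  have hacase : a = 1 ∨ a = 2 := by omega
  rcases hacase with rfl | rfl
  · have hb0 : b = 0 := by omega
    have hc0 : c = 0 := by omega
    subst hb0 hc0
    have hDd : D = d := by rw [hDdef]; ring
    have hke : k = e := by rw [hk]; ring
    have hgf : g = f := by rw [hg]; ring
    subst hDd hke hgf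
    have hD2 : D ≤ 2 := by nlinarith
    have : D = 1 ∨ D = 2 := by omega
    rcases this with rfl | rfl
    · have hk0 : k = 0 := by omega
      subst hk0
      exact ⟨rfl, rfl, rfl, rfl, rfl, by linarith⟩
    · exfalso
      have hkc : k = -1 ∨ k = 0 ∨ k = 1 := by omega
      have hP' := (hP 1 1 0 (by unfold val; norm_num)).1
      norm_num at hP'
  · exfalso
    have hD23 : D = 2 ∨ D = 3 := by omega
    have hbc : b = -1 ∨ b = 0 ∨ b = 1 := by omega
    have hcc : c = -1 ∨ c = 0 ∨ c = 1 := by omega
    have hkc : k = -1 ∨ k = 0 ∨ k = 1 := by omega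
    have hd2 : 2 ≤ d := by omega
    have hD3 : D = 3 := by rcases hbc with rfl | rfl | rfl <;> omega
    subst hD3
    have hk0 : k = 0 := by
      rcases hkc with rfl | h | rfl
      · omega
      · exact h
      · omega
    subst hk0
    have hg2 : g = 2 := by omega
    have hc0 : c = 0 := by rcases hcc with rfl | rfl | rfl <;> omega
    subst hc0
    have he0 : e = 0 := by omega
    have hf1 : f = 1 := by omega
    subst he0 hf1
    have hP' := (hP 1 0 1 (by unfold val; norm_num)).1
    norm_num at hP'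

theorem main (n : ℕ) : ∀ {a b c d e f : ℤ}, Good a b c d e f →
    (a * (a * d - b ^ 2)).toNat ≤ n → ∀ u v w : ℤ,
    ∃ x y z : ℤ, val a b c d e f u v w = x ^ 2 + y ^ 2 + 3 * z ^ 2 := by
  induction n with
  | zero =>
    intro a b c d e f h hn
    exfalso
    have h1 := mul_pos h.ha h.hD
    omega
  | succ n ih =>
    intro a b c d e f h hn u v w
    have ha := h.ha
    have hD := h.hD
    obtain ⟨t1, ht1⟩ := exists_rnd b a ha
    have g1 := good_red12 h t1
    rw [val_red12 t1]
    have eD : a * (d - 2 * t1 * b + t1 ^ 2 * a) - (b - t1 * a) ^ 2 = a * d - b ^ 2 := by ring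
    generalize u + t1 * v = u1
    generalize hb1 : b - t1 * a = b1 at *
    generalize d - 2 * t1 * b + t1 ^ 2 * a = d1 at *
    generalize e - t1 * c = e1 at *
    rw [← eD] at hn hD
    by_cases c1 : 4 * d1 < 3 * a
    · rw [val_swap12]
      apply ih (good_swap12 g1)
      have e2 : d1 * (d1 * a - b1 ^ 2) < a * (a * d1 - b1 ^ 2) := by
        have : d1 * a - b1 ^ 2 = a * d1 - b1 ^ 2 := by ring
        rw [this]
        have : d1 < a := by omega
        exact mul_lt_mul_of_pos_right this hD
      omega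
    · obtain ⟨t2, ht2⟩ := exists_rnd (e1 * a - b1 * c) (a * d1 - b1 ^ 2) hD
      have g2 := good_red23 g1 t2
      rw [val_red23 t2]
      generalize v + t2 * w = v1
      have hK : (e1 - t2 * d1) * a - b1 * (c - t2 * b1) =
          e1 * a - b1 * c - t2 * (a * d1 - b1 ^ 2) := by ring
      rw [← hK] at ht2
      generalize c - t2 * b1 = c1' at *
      generalize e1 - t2 * d1 = e2 at *
      generalize f - 2 * t2 * e1 + t2 ^ 2 * d1 = f2 at *
      obtain ⟨t3, ht3⟩ := exists_rnd c1' a ha
      have g3 := good_red13 g2 t3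
      rw [val_red13 t3]
      generalize u1 + t3 * w = u2
      have hK3 : (e2 - t3 * b1) * a - b1 * (c1' - t3 * a) = e2 * a - b1 * c1' := by ring
      rw [← hK3] at ht2
      generalize c1' - t3 * a = c2 at *
      generalize e2 - t3 * b1 = e3 at *
      generalize f2 - 2 * t3 * c1' + t3 ^ 2 * a = f3 at *
      by_cases c2c : 4 * (a * f3 - c2 ^ 2) < 3 * (a * d1 - b1 ^ 2)
      · rw [val_swap23]
        apply ih (good_swap23 g3)
        have e2 : a * (a * f3 - c2 ^ 2) < a * (a * d1 - b1 ^ 2) := by
          apply mul_lt_mul_of_pos_left _ ha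
          have := D13_pos g3
          omega
        omega
      · obtain ⟨q1, q2, q3, q4, q5, q6⟩ := reduced g3 ht1 ht3 ht2 (by omega) (by omega)
        subst q1 q2 q3 q4 q5 q6
        exact ⟨u2, v1, w, by unfold val; ring⟩

theorem main' {a b c d e f : ℤ} (h : Good a b c d e f) (u v w : ℤ) :
    ∃ x y z : ℤ, val a b c d e f u v w = x ^ 2 + y ^ 2 + 3 * z ^ 2 :=
  main _ h le_rfl u v w

end Q250.Tern3
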