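import Pool.Agent.Q250.Tern3

/-!
The numbers represented by `x² + y² + 3 z²`.
-/

set_option autoImplicit false

namespace Q250.Tern3

theorem neg_three {D : ℕ} (hD : D % 2 = 1) : jacobiSym (-3) D = jacobiSym D 3 := by
  have hDo : Odd D := Nat.odd_iff.2 hD
  have h1 : jacobiSym (-3) D = ZMod.χ₄ D * jacobiSym (3 : ℕ) D := by
    have := jacobiSym.neg 3 hDo
    exact_mod_cast this
  rw [h1]
  rcases Nat.odd_mod_four_iff.1 hD with h | h
  · rw [ZMod.χ₄_nat_one_mod_four h, one_mul]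
    exact (jacobiSym.quadratic_reciprocity_one_mod_four h (by decide)).symm
  · rw [ZMod.χ₄_nat_three_mod_four h,
      jacobiSym.quadratic_reciprocity_three_mod_four (by norm_num) h]
    ring

theorem neg_three_one {D : ℕ} (hD : D % 2 = 1) (h3 : D % 3 = 1) : jacobiSym (-3) D = 1 := by
  rw [neg_three hD, jacobiSym.mod_left' (a₂ := 1) (by omega)]
  exact jacobiSym.one_left 3

theorem neg_three_two {D : ℕ} (hD : D % 2 = 1) (h3 : D % 3 = 2) : jacobiSym (-3) D = -1 := by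
  rw [neg_three hD, jacobiSym.mod_left' (a₂ := 2) (by omega)]
  rw [jacobiSym.at_two (by decide)]
  decide

theorem root_of_jacobi {p : ℕ} (hp : p.Prime) {D : ℕ} (h : jacobiSym (-(D : ℤ)) p = 1) :
    ∃ b : ℤ, (p : ℤ) ∣ b ^ 2 + D := by
  have : Fact p.Prime := ⟨hp⟩
  obtain ⟨r, hr⟩ := ZMod.isSquare_of_jacobiSym_eq_one h
  refine ⟨r.val, ?_⟩
  rw [← ZMod.intCast_zmod_eq_zero_iff_dvd]
  push_cast
  rw [ZMod.natCast_zmod_val]
  push_cast at hr
  linear_combination -hr

/-- `D = 3 mod 4`, `(p/D) = 1` -/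
theorem flip3 {D p : ℕ} (hD : D % 4 = 3) (hp : p % 2 = 1) (h : jacobiSym p D = 1) :
    jacobiSym (-(D : ℤ)) p = 1 := by
  have hDo : Odd D := Nat.odd_iff.2 (by omega)
  have hpo : Odd p := Nat.odd_iff.2 hp
  rw [jacobiSym.neg _ hpo]
  rcases Nat.odd_mod_four_iff.1 hp with h4 | h4
  · rw [← jacobiSym.quadratic_reciprocity_one_mod_four h4 hDo, h, ZMod.χ₄_nat_one_mod_four h4]
    rfl
  · rw [jacobiSym.quadratic_reciprocity_three_mod_four hD h4, h,
      ZMod.χ₄_nat_three_mod_four h4]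
    rfl

/-- `D = 2 E`, `E = 3 mod 4`, `(p/E) = -1`, `p = 3 mod 8` -/
theorem flip6 {E p : ℕ} (hE : E % 4 = 3) (hp : p % 8 = 3) (h : jacobiSym p E = -1) :
    jacobiSym (-((2 * E : ℕ) : ℤ)) p = 1 := by
  have hEo : Odd E := Nat.odd_iff.2 (by omega)
  have hpo : Odd p := Nat.odd_iff.2 (by omega)
  have h1 : -((2 * E : ℕ) : ℤ) = (-2) * (E : ℤ) := by push_cast; ring
  rw [h1, jacobiSym.mul_left, jacobiSym.at_neg_two hpo]
  rw [jacobiSym.quadratic_reciprocity_three_mod_four hE (by omega), h]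
  have : (p : ZMod 8) = 3 := by
    have : ((p % 8 : ℕ) : ZMod 8) = p := by simp
    rw [← this, hp]; rfl
  rw [this]; decide

theorem two_one {D : ℕ} (hD : D % 8 = 7) : jacobiSym 2 D = 1 := by
  rw [jacobiSym.at_two (Nat.odd_iff.2 (by omega))]
  have : (D : ZMod 8) = 7 := by
    have : ((D % 8 : ℕ) : ZMod 8) = D := by simp
    rw [← this, hD]; rfl
  rw [this]; decide

/-- assembling: the form with corner entries -/
theorem build {D m d b g : ℤ} (hd : 0 < d) (hD : 0 < D) (hD3 : D % 3 = 1)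
    (hg : g = 1 ∨ g = 3) (hdet : D * m - g ^ 2 * d = 3) (hb : d ∣ b ^ 2 + D) :
    ∃ x y z : ℤ, m = x ^ 2 + y ^ 2 + 3 * z ^ 2 := by
  obtain ⟨a, ha⟩ := hb
  have hapos : 0 < a := by
    by_contra hc
    push Not at hc
    nlinarith [sq_nonneg b]
  have hDe : a * d - b ^ 2 = D := by linarith [mul_comm a d]
  have key : Good a b g d 0 m := by
    refine ⟨hapos, by rw [hDe]; exact hD, ?_, ?_⟩
    · have : a * d * m + 2 * b * g * 0 - a * 0 ^ 2 - b ^ 2 * m - g ^ 2 * d =
          (a * d - b ^ 2) * m - g ^ 2 * d := by ring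
      rw [this, hDe]; exact hdet
    · intro u v w h
      have hDz : (D : ZMod 3) = 1 := by
        have : ((D % 3 : ℤ) : ZMod 3) = (D : ZMod 3) := ZMod.intCast_mod D 3
        rw [← this, hD3]; rfl
      have c1 : (a : ZMod 3) * d - b ^ 2 = 1 := by
        rw [← hDz, ← hDe]; push_cast; ring
      have c2 : (m : ZMod 3) = (g : ZMod 3) ^ 2 * d := by
        have h3 : ((D * m - g ^ 2 * d : ℤ) : ZMod 3) = ((3 : ℤ) : ZMod 3) := by rw [hdet]
        push_cast at h3
        have h33 : (3 : ZMod 3) = 0 := by decide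
        rw [hDz, h33, one_mul] at h3
        linear_combination h3
      have c3 : (g : ZMod 3) = 0 ∨ (g : ZMod 3) = 1 := by
        rcases hg with rfl | rfl
        · right; norm_num
        · left; decide
      have t : ∀ x : ℤ, (3 : ℤ) ∣ x ↔ ((x : ℤ) : ZMod 3) = 0 := fun x =>
        (ZMod.intCast_zmod_eq_zero_iff_dvd x 3).symm
      rw [t] at h
      rw [t, t, t]
      unfold val at h
      push_cast at h ⊢
      generalize (a : ZMod 3) = a' at *
      generalize (b : ZMod 3) = b' at *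
      generalize (d : ZMod 3) = d' at *
      generalize (u : ZMod 3) = u' at *
      generalize (v : ZMod 3) = v' at *
      generalize (w : ZMod 3) = w' at *
      rw [c2] at h ⊢
      rcases c3 with hg0 | hg1
      · rw [hg0] at h ⊢
        clear c2 hg0
        revert a' b' d' u' v' w'
        decide
      · rw [hg1] at h ⊢
        clear c2 hg1
        revert a' b' d' u' v' w'
        decide
  obtain ⟨x, y, z, h⟩ := main' key 0 0 1
  refine ⟨x, y, z, ?_⟩
  rw [← h]; unfold val; ring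

theorem jac_congr {D : ℕ} {x y : ℤ} (h : (D : ℤ) ∣ x - y) : jacobiSym x D = jacobiSym y D :=
  jacobiSym.mod_left' (Int.emod_eq_emod_iff_emod_sub_eq_zero.2 (Int.emod_eq_zero_of_dvd h))

/-- make the root odd -/
theorem odd_root {p D : ℕ} (hp : p % 2 = 1) (hD : D % 2 = 1)
    (h : ∃ b : ℤ, (p : ℤ) ∣ b ^ 2 + D) : ∃ b : ℤ, ((2 * p : ℕ) : ℤ) ∣ b ^ 2 + D := by
  obtain ⟨b₀, hb₀⟩ := h
  have hpo : Odd p := Nat.odd_iff.2 hp
  have hDo : Odd D := Nat.odd_iff.2 hD
  obtain ⟨b, hb, hbodd⟩ : ∃ b : ℤ, (p : ℤ) ∣ b ^ 2 + D ∧ Odd b := by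
    rcases Int.even_or_odd b₀ with h | h
    · refine ⟨b₀ + p, ?_, h.add_odd (by exact_mod_cast hpo)⟩
      have : (b₀ + p) ^ 2 + (D : ℤ) = (b₀ ^ 2 + D) + p * (2 * b₀ + p) := by ring
      rw [this]
      exact dvd_add hb₀ (dvd_mul_right _ _)
    · exact ⟨b₀, hb₀, h⟩
  refine ⟨b, ?_⟩
  push_cast
  apply IsCoprime.mul_dvd _ _ hb
  · rw [← Nat.cast_ofNat, Nat.isCoprime_iff_coprime]
    exact Nat.coprime_two_left.2 hpo
  · rw [← even_iff_two_dvd]
    exact (hbodd.pow).add_odd (by exact_mod_cast hDo)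

theorem caseA {m D p : ℕ} (hp : p.Prime) (hp2 : p % 2 = 1) (hD : D % 12 = 7)
    (h : D * m = p + 3) : ∃ x y z : ℤ, (m : ℤ) = x ^ 2 + y ^ 2 + 3 * z ^ 2 := by
  have hz : (D : ℤ) * m = p + 3 := by exact_mod_cast h
  have h1 : jacobiSym p D = 1 := by
    rw [jac_congr (y := -3) ⟨m, by linarith⟩]
    exact neg_three_one (by omega) (by omega)
  obtain ⟨b, hb⟩ := root_of_jacobi hp (flip3 (by omega) hp2 h1)
  exact build (D := D) (d := p) (g := 1) (by exact_mod_cast hp.pos) (by omega) (by omega)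
    (Or.inl rfl) (by linarith) hb

theorem caseB {m E p : ℕ} (hp : p.Prime) (hm : m % 4 = 1) (hE : E % 12 = 11)
    (h : 2 * E * m = p + 3) : ∃ x y z : ℤ, (m : ℤ) = x ^ 2 + y ^ 2 + 3 * z ^ 2 := by
  have hz : (2 * E : ℤ) * m = p + 3 := by exact_mod_cast h
  have h1 : jacobiSym p E = -1 := by
    rw [jac_congr (y := -3) ⟨2 * m, by linarith⟩]
    exact neg_three_two (by omega) (by omega)
  have hp8 : p % 8 = 3 := by
    have h4 : (E * m) % 4 = 3 := by
      rw [Nat.mul_mod, hm, show E % 4 = 3 by omega]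
    have h5 : 2 * (E * m) = p + 3 := by rw [← h]; ring
    omega
  obtain ⟨b, hb⟩ := root_of_jacobi hp (flip6 (by omega) hp8 h1)
  exact build (D := (2 * E : ℕ)) (d := p) (g := 1) (by exact_mod_cast hp.pos) (by omega)
    (by omega) (Or.inl rfl) (by push_cast; linarith) hb

theorem caseC {m D p : ℕ} (hp : p.Prime) (hp2 : p % 2 = 1) (hD : D % 24 = 7)
    (h : D * m = 2 * p + 3) : ∃ x y z : ℤ, (m : ℤ) = x ^ 2 + y ^ 2 + 3 * z ^ 2 := by
  have hz : (D : ℤ) * m = 2 * p + 3 := by exact_mod_cast h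
  have h1 : jacobiSym (2 * p) D = 1 := by
    rw [jac_congr (y := -3) ⟨m, by linarith⟩]
    exact neg_three_one (by omega) (by omega)
  rw [jacobiSym.mul_left, two_one (by omega), one_mul] at h1
  obtain ⟨b, hb⟩ := odd_root hp2 (by omega) (root_of_jacobi hp (flip3 (by omega) hp2 h1))
  exact build (D := D) (d := (2 * p : ℕ)) (g := 1) (by have := hp.pos; omega) (by omega)
    (by omega) (Or.inl rfl) (by push_cast; linarith) hb

theorem three_sq {D : ℕ} (h : D % 3 ≠ 0) : jacobiSym 3 D * jacobiSym 3 D = 1 := by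
  have : jacobiSym 3 D = 1 ∨ jacobiSym 3 D = -1 := by
    apply jacobiSym.eq_one_or_neg_one
    rw [show (3 : ℤ) = ((3 : ℕ) : ℤ) by rfl, Int.gcd_natCast_natCast]
    rw [← Nat.coprime_iff_gcd_eq_one, Nat.Prime.coprime_iff_not_dvd Nat.prime_three]
    omega
  rcases this with h | h <;> rw [h] <;> norm_num

theorem caseD {m D p : ℕ} (hp : p.Prime) (hp2 : p % 2 = 1) (hD : D % 12 = 7)
    (h : D * m = 3 * p + 1) : ∃ x y z : ℤ, ((3 * m : ℕ) : ℤ) = x ^ 2 + y ^ 2 + 3 * z ^ 2 := by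
  have hz : (D : ℤ) * m = 3 * p + 1 := by exact_mod_cast h
  have h1 : jacobiSym p D = 1 := by
    have h2 : jacobiSym (3 * (3 * p)) D = 1 := by
      rw [jac_congr (y := -3) ⟨3 * m, by linarith⟩]
      exact neg_three_one (by omega) (by omega)
    rw [jacobiSym.mul_left, jacobiSym.mul_left, ← mul_assoc, three_sq (by omega), one_mul] at h2
    exact h2
  obtain ⟨b, hb⟩ := root_of_jacobi hp (flip3 (by omega) hp2 h1)
  exact build (D := D) (d := p) (g := 3) (by exact_mod_cast hp.pos) (by omega) (by omega)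
    (Or.inr rfl) (by push_cast; linarith) hb

theorem caseE {m E p : ℕ} (hp : p.Prime) (hm : m % 4 = 3) (hE : E % 12 = 11)
    (h : 2 * E * m = 3 * p + 1) :
    ∃ x y z : ℤ, ((3 * m : ℕ) : ℤ) = x ^ 2 + y ^ 2 + 3 * z ^ 2 := by
  have hz : (2 * E : ℤ) * m = 3 * p + 1 := by exact_mod_cast h
  have h1 : jacobiSym p E = -1 := by
    have h2 : jacobiSym (3 * (3 * p)) E = -1 := by
      rw [jac_congr (y := -3) ⟨3 * (2 * m), by linarith⟩]
      exact neg_three_two (by omega) (by omega)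
    rw [jacobiSym.mul_left, jacobiSym.mul_left, ← mul_assoc, three_sq (by omega), one_mul] at h2
    exact h2
  have hp8 : p % 8 = 3 := by
    have h4 : (E * m) % 4 = 1 := by
      rw [Nat.mul_mod, hm, show E % 4 = 3 by omega]
    have h5 : 2 * (E * m) = 3 * p + 1 := by rw [← h]; ring
    omega
  obtain ⟨b, hb⟩ := root_of_jacobi hp (flip6 (by omega) hp8 h1)
  exact build (D := (2 * E : ℕ)) (d := p) (g := 3) (by exact_mod_cast hp.pos) (by omega)
    (by omega) (Or.inr rfl) (by push_cast; linarith) hb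

theorem caseF {m D p : ℕ} (hp : p.Prime) (hp2 : p % 2 = 1) (hD : D % 24 = 7)
    (h : D * m = 6 * p + 1) :
    ∃ x y z : ℤ, ((3 * m : ℕ) : ℤ) = x ^ 2 + y ^ 2 + 3 * z ^ 2 := by
  have hz : (D : ℤ) * m = 6 * p + 1 := by exact_mod_cast h
  have h1 : jacobiSym p D = 1 := by
    have h2 : jacobiSym (3 * (3 * (2 * p))) D = 1 := by
      rw [jac_congr (y := -3) ⟨3 * m, by linarith⟩]
      exact neg_three_one (by omega) (by omega)
    rw [jacobiSym.mul_left, jacobiSym.mul_left, ← mul_assoc, three_sq (by omega), one_mul,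
      jacobiSym.mul_left, two_one (by omega), one_mul] at h2
    exact h2
  obtain ⟨b, hb⟩ := odd_root hp2 (by omega) (root_of_jacobi hp (flip3 (by omega) hp2 h1))
  exact build (D := D) (d := (2 * p : ℕ)) (g := 3) (by have := hp.pos; omega) (by omega)
    (by omega) (Or.inr rfl) (by push_cast; linarith) hb

theorem dir {M r : ℕ} (hM : M ≠ 0) (h : r.Coprime M) : ∃ k, (r + M * k).Prime := by
  obtain ⟨p, hp1, hp, hpr⟩ := Nat.forall_exists_prime_gt_and_modEq r hM h
  have h2 := (Nat.modEq_iff_dvd' hp1.le).1 hpr.symm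
  obtain ⟨k, hk⟩ := h2
  refine ⟨k, ?_⟩
  have : r + M * k = p := by omega
  rwa [this]

/-- `3 ∤ m` -/
theorem rep_one {m : ℕ} (hm : 0 < m) (h3 : m % 3 ≠ 0) :
    ∃ x y z : ℤ, (m : ℤ) = x ^ 2 + y ^ 2 + 3 * z ^ 2 := by
  have c3 : Nat.Coprime 3 m := by
    rw [Nat.Prime.coprime_iff_not_dvd Nat.prime_three]; omega
  have key : ∀ r c s : ℕ, r * s + 3 = c * m → r % 2 = 1 → (r % 3 ≠ 0) → r.Coprime m := by
    intro r c s h _ _
    have h1 : Nat.gcd r m ∣ 3 := by
      have h2 : Nat.gcd r m ∣ c * m := (Nat.gcd_dvd_right r m).mul_left c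
      rw [← h] at h2
      exact (Nat.dvd_add_right ((Nat.gcd_dvd_left r m).mul_right s)).1 h2
    have h2 : Nat.gcd r m ∣ m := Nat.gcd_dvd_right r m
    have h3 : Nat.gcd r m ∣ 1 := by
      rw [← c3]; exact Nat.dvd_gcd h1 h2
    exact Nat.dvd_one.1 h3
  have key2 : ∀ r : ℕ, r % 2 = 1 → r % 3 ≠ 0 → r.Coprime 24 := by
    intro r h1 h2
    rw [show 24 = 2 ^ 3 * 3 by norm_num]
    apply Nat.Coprime.mul_right
    · apply Nat.Coprime.pow_right
      rw [Nat.coprime_comm, Nat.coprime_two_left, Nat.odd_iff]; exact h1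
    · rw [Nat.coprime_comm, Nat.Prime.coprime_iff_not_dvd Nat.prime_three]; omega
  have h4 : m % 2 = 0 ∨ m % 4 = 1 ∨ m % 4 = 3 := by omega
  rcases h4 with h4 | h4 | h4
  · have c1 : (7 * m - 3).Coprime (12 * m) := by
      apply Nat.Coprime.mul_right
      · exact Nat.Coprime.coprime_dvd_right (by norm_num) (key2 _ (by omega) (by omega))
      · exact key _ 7 1 (by omega) (by omega) (by omega)
    obtain ⟨k, hk⟩ := dir (by omega) c1
    have e : 12 * m * k = 2 * (6 * m * k) := by ring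
    refine caseA (D := 12 * k + 7) hk (by omega) (by omega) ?_
    have e2 : (12 * k + 7) * m = 12 * m * k + 7 * m := by ring
    omega
  · have c1 : (22 * m - 3).Coprime (24 * m) := by
      apply Nat.Coprime.mul_right
      · exact key2 _ (by omega) (by omega)
      · exact key _ 22 1 (by omega) (by omega) (by omega)
    obtain ⟨k, hk⟩ := dir (by omega) c1
    refine caseB (E := 12 * k + 11) hk h4 (by omega) ?_
    have e2 : 2 * (12 * k + 11) * m = 24 * m * k + 22 * m := by ring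
    omega
  · have c1 : ((7 * m - 3) / 2).Coprime (12 * m) := by
      apply Nat.Coprime.mul_right
      · exact Nat.Coprime.coprime_dvd_right (by norm_num) (key2 _ (by omega) (by omega))
      · exact key _ 7 2 (by omega) (by omega) (by omega)
    obtain ⟨k, hk⟩ := dir (by omega) c1
    have e : 12 * m * k = 2 * (6 * m * k) := by ring
    refine caseC (D := 24 * k + 7) hk (by omega) (by omega) ?_
    have e2 : (24 * k + 7) * m = 2 * (12 * m * k) + 7 * m := by ring
    omega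

/-- `3 m`, `m = 1 mod 3` -/
theorem rep_three {m : ℕ} (h3 : m % 3 = 1) :
    ∃ x y z : ℤ, ((3 * m : ℕ) : ℤ) = x ^ 2 + y ^ 2 + 3 * z ^ 2 := by
  have key : ∀ r c s : ℕ, r * s + 1 = c * m → r.Coprime m := by
    intro r c s h
    have h1 : Nat.gcd r m ∣ 1 := by
      have h2 : Nat.gcd r m ∣ c * m := (Nat.gcd_dvd_right r m).mul_left c
      rw [← h] at h2
      exact (Nat.dvd_add_right ((Nat.gcd_dvd_left r m).mul_right s)).1 h2
    exact Nat.dvd_one.1 h1
  have key2 : ∀ r : ℕ, r % 2 = 1 → r.Coprime 8 := by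
    intro r h1
    rw [show 8 = 2 ^ 3 by norm_num]
    apply Nat.Coprime.pow_right
    rw [Nat.coprime_comm, Nat.coprime_two_left, Nat.odd_iff]; exact h1
  have h4 : m % 2 = 0 ∨ m % 4 = 1 ∨ m % 4 = 3 := by omega
  rcases h4 with h4 | h4 | h4
  · have c1 : ((7 * m - 1) / 3).Coprime (4 * m) := by
      apply Nat.Coprime.mul_right
      · exact Nat.Coprime.coprime_dvd_right (by norm_num) (key2 _ (by omega))
      · exact key _ 7 3 (by omega)
    obtain ⟨k, hk⟩ := dir (by omega) c1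
    have e : 4 * m * k = 2 * (2 * m * k) := by ring
    refine caseD (D := 12 * k + 7) hk (by omega) (by omega) ?_
    have e2 : (12 * k + 7) * m = 3 * (4 * m * k) + 7 * m := by ring
    omega
  · have c1 : ((7 * m - 1) / 6).Coprime (4 * m) := by
      apply Nat.Coprime.mul_right
      · exact Nat.Coprime.coprime_dvd_right (by norm_num) (key2 _ (by omega))
      · exact key _ 7 6 (by omega)
    obtain ⟨k, hk⟩ := dir (by omega) c1
    have e : 4 * m * k = 2 * (2 * m * k) := by ring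
    refine caseF (D := 24 * k + 7) hk (by omega) (by omega) ?_
    have e2 : (24 * k + 7) * m = 6 * (4 * m * k) + 7 * m := by ring
    omega
  · have c1 : ((22 * m - 1) / 3).Coprime (8 * m) := by
      apply Nat.Coprime.mul_right
      · exact key2 _ (by omega)
      · exact key _ 22 3 (by omega)
    obtain ⟨k, hk⟩ := dir (by omega) c1
    refine caseE (E := 12 * k + 11) hk h4 (by omega) ?_
    have e2 : 2 * (12 * k + 11) * m = 3 * (8 * m * k) + 22 * m := by ring
    omega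

/-- the admissible numbers -/
def Adm (N : ℕ) : Prop := ∀ k t : ℕ, N ≠ 9 ^ k * (9 * t + 6)

theorem rep {N : ℕ} (hN : 0 < N) (h : Adm N) :
    ∃ x y z : ℤ, (N : ℤ) = x ^ 2 + y ^ 2 + 3 * z ^ 2 := by
  induction N using Nat.strong_induction_on with
  | _ N ih =>
    by_cases h3 : N % 3 = 0
    · by_cases h9 : N % 9 = 0
      · obtain ⟨M, rfl⟩ := Nat.dvd_of_mod_eq_zero h9
        obtain ⟨x, y, z, e⟩ := ih M (by omega) (by omega) (by
          intro k t ht
          apply h (k + 1) t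
          rw [ht]; ring)
        refine ⟨3 * x, 3 * y, 3 * z, ?_⟩
        push_cast
        rw [e]; ring
      · have h6 : N % 9 ≠ 6 := by
          intro h6
          apply h 0 (N / 9)
          omega
        obtain ⟨M, rfl⟩ := Nat.dvd_of_mod_eq_zero h3
        exact rep_three (by omega)
    · exact rep_one hN h3

/-- a representation of `4 N` with odd last entry -/
theorem rep_odd {N : ℕ} (hN : 0 < N) (h : Adm N) :
    ∃ s t z : ℤ, 4 * (N : ℤ) = s ^ 2 + t ^ 2 + 3 * z ^ 2 ∧ z % 2 = 1 := by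
  induction N using Nat.strong_induction_on with
  | _ N ih =>
    have step : ∀ a b c : ℤ, (N : ℤ) = a ^ 2 + b ^ 2 + 3 * c ^ 2 → (b - c) % 2 = 1 →
        ∃ s t z : ℤ, 4 * (N : ℤ) = s ^ 2 + t ^ 2 + 3 * z ^ 2 ∧ z % 2 = 1 := by
      intro a b c e hbc
      exact ⟨2 * a, b + 3 * c, b - c, by rw [e]; ring, hbc⟩
    have step' : ∀ a b c : ℤ, (N : ℤ) = a ^ 2 + b ^ 2 + 3 * c ^ 2 → (a - c) % 2 = 1 →
        ∃ s t z : ℤ, 4 * (N : ℤ) = s ^ 2 + t ^ 2 + 3 * z ^ 2 ∧ z % 2 = 1 := by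
      intro a b c e hbc
      exact step b a c (by rw [e]; ring) hbc
    obtain ⟨a, b, c, e⟩ := rep hN h
    by_cases h1 : (b - c) % 2 = 1
    · exact step a b c e h1
    by_cases h2 : (a - c) % 2 = 1
    · exact step' a b c e h2
    have step3 : ∀ c : ℤ, (N : ℤ) = a ^ 2 + b ^ 2 + 3 * c ^ 2 → a % 2 = 1 → (b - c) % 4 = 0 →
        ∃ s t z : ℤ, 4 * (N : ℤ) = s ^ 2 + t ^ 2 + 3 * z ^ 2 ∧ z % 2 = 1 := by
      intro c e ha hbc
      obtain ⟨q, hq⟩ : ∃ q, b - c = 4 * q := ⟨(b - c) / 4, by omega⟩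
      have hb : b = 4 * q + c := by linarith
      refine step' a (2 * q + 2 * c) (2 * q) ?_ (by omega)
      rw [e, hb]; ring
    by_cases hc : c % 2 = 1
    · have ha : a % 2 = 1 := by omega
      by_cases h4 : (b - c) % 4 = 0
      · exact step3 c e ha h4
      · exact step3 (-c) (by rw [e]; ring) ha (by omega)
    · obtain ⟨a', ha⟩ : ∃ q, a = 2 * q := ⟨a / 2, by omega⟩
      obtain ⟨b', hb⟩ : ∃ q, b = 2 * q := ⟨b / 2, by omega⟩
      obtain ⟨c', hc⟩ : ∃ q, c = 2 * q := ⟨c / 2, by omega⟩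
      subst ha hb hc
      have e4 : (N : ℤ) = 4 * (a' ^ 2 + b' ^ 2 + 3 * c' ^ 2) := by rw [e]; ring
      obtain ⟨M, hM⟩ : ∃ M, N = 4 * M := ⟨N / 4, by omega⟩
      obtain ⟨s, t, z, e5, hz⟩ := ih M (by omega) (by omega) (by
        intro k t ht
        apply h k (4 * t + 2)
        rw [hM, ht]; ring)
      have e6 : (N : ℤ) = s ^ 2 + t ^ 2 + 3 * z ^ 2 := by rw [← e5, hM]; push_cast; ring
      by_cases ht : t % 2 = 0
      · exact step s t z e6 (by omega)
      · by_cases hs : s % 2 = 0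
        · exact step' s t z e6 (by omega)
        · exfalso
          obtain ⟨s', hs'⟩ : ∃ q, s = 2 * q + 1 := ⟨s / 2, by omega⟩
          obtain ⟨t', ht'⟩ : ∃ q, t = 2 * q + 1 := ⟨t / 2, by omega⟩
          obtain ⟨z', hz'⟩ : ∃ q, z = 2 * q + 1 := ⟨z / 2, by omega⟩
          subst hs' ht' hz'
          have e7 : 4 * (M : ℤ) =
              4 * (s' ^ 2 + s' + t' ^ 2 + t' + 3 * (z' ^ 2 + z') + 1) + 1 := by
            rw [e5]; ring
          omega

theorem rep_tri {n : ℕ} (h : Adm (n + 1)) : ∃ x y z : ℤ,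
    (n : ℤ) = x * (x - 1) / 2 + y * (y - 1) / 2 + 6 * (z * (z - 1) / 2) := by
  obtain ⟨s, t, z, e, hz⟩ := rep_odd (Nat.succ_pos n) h
  obtain ⟨z', hz'⟩ : ∃ q, z = 2 * q - 1 := ⟨(z + 1) / 2, by omega⟩
  have par : ∀ x : ℤ, x * (x - 1) = 2 * (x * (x - 1) / 2) := by
    intro x
    have : (2 : ℤ) ∣ x * (x - 1) := by
      rcases Int.even_or_odd x with ⟨q, hq⟩ | ⟨q, hq⟩
      · exact ⟨q * (x - 1), by rw [hq]; ring⟩
      · exact ⟨x * q, by rw [hq]; ring⟩
    omega
  have hst : (s + t) % 2 = 1 := by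
    by_contra hc
    obtain ⟨q, hq⟩ : ∃ q, s + t = 2 * q := ⟨(s + t) / 2, by omega⟩
    have hs : s = 2 * q - t := by linarith
    subst hs hz'
    have e2 : 4 * ((n + 1 : ℕ) : ℤ) = 4 * (q ^ 2 - q * t + 3 * (z' ^ 2 - z')) + 3 + 2 * t ^ 2 := by
      rw [e]; ring
    omega
  obtain ⟨x, hx⟩ : ∃ q, s + t = 2 * q - 1 := ⟨(s + t + 1) / 2, by omega⟩
  obtain ⟨y, hy⟩ : ∃ q, s - t = 2 * q - 1 := ⟨(s - t + 1) / 2, by omega⟩
  refine ⟨x, y, z', ?_⟩
  have p1 := par x
  have p2 := par y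
  have p3 := par z'
  have e3 : 8 * ((n + 1 : ℕ) : ℤ) = (s + t) ^ 2 + (s - t) ^ 2 + 6 * z ^ 2 := by linear_combination 2 * e
  rw [hx, hy, hz'] at e3
  have e4 : 8 * ((n + 1 : ℕ) : ℤ) = 4 * (x * (x - 1)) + 4 * (y * (y - 1)) + 6 * 4 * (z' * (z' - 1)) + 8 := by
    rw [e3]; ring
  push_cast at e4
  omega

theorem adm_of_rep {N : ℕ} : (∃ x y z : ℤ, 8 * (N : ℤ) = x ^ 2 + y ^ 2 + 6 * z ^ 2) →
    N ≠ 0 → Adm N := by
  induction N using Nat.strong_induction_on with
  | _ N ih =>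
    rintro ⟨x, y, z, e⟩ hN k t ht
    have h3 : (3 : ℤ) ∣ x ∧ (3 : ℤ) ∣ y := by
      have h1 : (3 : ℤ) ∣ x ^ 2 + y ^ 2 := by
        have h2 : (3 : ℤ) ∣ (N : ℤ) := by
          rw [ht]; push_cast
          exact ⟨9 ^ k * (3 * t + 2), by ring⟩
        have : x ^ 2 + y ^ 2 = 8 * N - 3 * (2 * z ^ 2) := by rw [e]; ring
        rw [this]
        exact dvd_sub (h2.mul_left 8) (dvd_mul_right _ _)
      have hx : x % 3 = 0 ∨ x % 3 = 1 ∨ x % 3 = 2 := by omega
      have hy : y % 3 = 0 ∨ y % 3 = 1 ∨ y % 3 = 2 := by omega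
      have h4 : (x ^ 2 + y ^ 2) % 3 = 0 := Int.emod_eq_zero_of_dvd h1
      rcases hx with hx | hx | hx <;> rcases hy with hy | hy | hy <;>
        simp [pow_two, Int.add_emod, Int.mul_emod, hx, hy] at h4 <;> omega
    obtain ⟨⟨x', rfl⟩, ⟨y', rfl⟩⟩ := h3
    rcases k with _ | k
    · rw [ht] at e
      push_cast at e
      have e2 : 24 * (t : ℤ) + 16 = 3 * (x' ^ 2 + y' ^ 2) + 2 * z ^ 2 := by linarith
      have hz : z % 3 = 0 ∨ z % 3 = 1 ∨ z % 3 = 2 := by omega
      have h4 : (2 * z ^ 2) % 3 = 1 := by omega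
      rcases hz with hz | hz | hz <;>
        simp [pow_two, Int.mul_emod, hz] at h4
    · have h5 : (3 : ℤ) ∣ z := by
        have hz : z % 3 = 0 ∨ z % 3 = 1 ∨ z % 3 = 2 := by omega
        have h4 : (2 * z ^ 2) % 3 = 0 := by
          have e3 : 3 * (2 * z ^ 2) = 3 * (3 * (8 * 9 ^ k * (9 * t + 6) - x' ^ 2 - y' ^ 2)) := by
            have : (6 * z ^ 2 : ℤ) = 8 * (N : ℤ) - (3 * x') ^ 2 - (3 * y') ^ 2 := by linarith
            rw [show 3 * (2 * z ^ 2) = 6 * z ^ 2 by ring, this, ht]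
            push_cast
            ring
          have e4 := mul_left_cancel₀ (by norm_num : (3 : ℤ) ≠ 0) e3
          rw [e4]; omega
        rcases hz with hz | hz | hz
        · exact Int.dvd_of_emod_eq_zero hz
        · simp [pow_two, Int.mul_emod, hz] at h4
        · simp [pow_two, Int.mul_emod, hz] at h4
      obtain ⟨z', rfl⟩ := h5
      refine ih (9 ^ k * (9 * t + 6)) ?_ ⟨x', y', z', ?_⟩ (by positivity) k t rfl
      · rw [ht, pow_succ]
        have : 0 < 9 ^ k * (9 * t + 6) := by positivity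
        nlinarith
      · rw [ht] at e
        push_cast at e ⊢
        have : (9 : ℤ) * (8 * (9 ^ k * (9 * t + 6))) = 9 * (x' ^ 2 + y' ^ 2 + 6 * z' ^ 2) := by
          rw [pow_succ] at e
          linarith
        exact mul_left_cancel₀ (by norm_num : (9 : ℤ) ≠ 0) this

end Q250.Tern3
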